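import Mathlib
import Pool.Agent.Helper826.Ptol.Header

set_option autoImplicit false

namespace Pool.Agent.Helper826.Ptol.JA

open Set Filter Topology


lemma da_polar (u : ℝ × ℝ) (hu : u.1 ^ 2 + u.2 ^ 2 = 1) : ∃ t : ℝ, u = (Real.cos t, Real.sin t) := by
  have hn : ‖(⟨u.1, u.2⟩ : ℂ)‖ = 1 := by
    rw [Complex.norm_def, Complex.normSq_mk, ← sq, ← sq, hu, Real.sqrt_one]
  have hz : (⟨u.1, u.2⟩ : ℂ) ≠ 0 := by
    intro h
    rw [h, norm_zero] at hn
    exact zero_ne_one hn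
  refine ⟨Complex.arg ⟨u.1, u.2⟩, ?_⟩
  rw [Complex.cos_arg hz, Complex.sin_arg, hn]
  simp

lemma da_zero {N : ℝ × ℝ → ℝ} (hhom : ∀ (c : ℝ) (v : ℝ × ℝ), N (c • v) = |c| * N v) : N 0 = 0 := by
  have := hhom 0 0
  simpa using this

lemma da_neg {N : ℝ × ℝ → ℝ} (hhom : ∀ (c : ℝ) (v : ℝ × ℝ), N (c • v) = |c| * N v) (v : ℝ × ℝ) :
    N (-v) = N v := by
  have := hhom (-1) v
  simpa using this

lemma da_nonneg {N : ℝ × ℝ → ℝ} (h0 : ∀ v, v ≠ 0 → 0 < N v)
    (hhom : ∀ (c : ℝ) (v : ℝ × ℝ), N (c • v) = |c| * N v) (v : ℝ × ℝ) : 0 ≤ N v := by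
  by_cases h : v = 0
  · rw [h, da_zero hhom]
  · exact (h0 v h).le

lemma da_cont {N : ℝ × ℝ → ℝ} (hhom : ∀ (c : ℝ) (v : ℝ × ℝ), N (c • v) = |c| * N v)
    (htri : ∀ v w, N (v + w) ≤ N v + N w) : Continuous N := by
  rw [continuous_iff_continuousAt]
  intro w
  have h1 : ∀ v, dist (N v) (N w) ≤ |v.1 - w.1| * N (1, 0) + |v.2 - w.2| * N (0, 1) := by
    intro v
    have h2 : ∀ x : ℝ × ℝ, N x ≤ |x.1| * N (1, 0) + |x.2| * N (0, 1) := by
      intro x
      have h3 : x = x.1 • ((1, 0) : ℝ × ℝ) + x.2 • ((0, 1) : ℝ × ℝ) := by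
        ext <;> simp
      calc N x = N (x.1 • ((1, 0) : ℝ × ℝ) + x.2 • ((0, 1) : ℝ × ℝ)) := by rw [← h3]
        _ ≤ _ := htri _ _
        _ = _ := by rw [hhom, hhom]
    have h4 := h2 (v - w)
    have h5 : N v ≤ N w + N (v - w) := by
      have := htri w (v - w)
      rwa [add_sub_cancel] at this
    have h6 : N w ≤ N v + N (v - w) := by
      have := htri v (w - v)
      rw [add_sub_cancel, ← neg_sub v w, da_neg hhom] at this
      exact this
    simp only [Prod.fst_sub, Prod.snd_sub] at h4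
    rw [Real.dist_eq, abs_le]
    constructor <;> linarith
  rw [ContinuousAt, tendsto_iff_dist_tendsto_zero]
  refine squeeze_zero (fun _ => dist_nonneg) h1 ?_
  have h2 : Continuous (fun v : ℝ × ℝ => |v.1 - w.1| * N (1, 0) + |v.2 - w.2| * N (0, 1)) := by
    fun_prop
  have h3 := h2.tendsto w
  simpa using h3

/-- intervals between contact angles -/
lemma da_interval {T : Set ℝ} (hT : IsClosed T)
    (hmid : ∀ s ∈ T, ∀ t ∈ T, s < t → t - s < Real.pi → (s + t) / 2 ∈ T)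
    {s t : ℝ} (hs : s ∈ T) (ht : t ∈ T) (_hst : s < t) (hpi : t - s < Real.pi) :
    Icc s t ⊆ T := by
  intro x hx
  by_contra hxT
  have c1 : IsCompact (T ∩ Icc s x) := isCompact_Icc.inter_left hT
  have c2 : IsCompact (T ∩ Icc x t) := isCompact_Icc.inter_left hT
  obtain ⟨a, ha, ha'⟩ := c1.exists_isGreatest ⟨s, hs, le_rfl, hx.1⟩
  obtain ⟨b, hb, hb'⟩ := c2.exists_isLeast ⟨t, ht, hx.2, le_rfl⟩
  have hax : a < x := lt_of_le_of_ne ha.2.2 (fun h => hxT (h ▸ ha.1))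
  have hxb : x < b := lt_of_le_of_ne hb.2.1 (fun h => hxT (h ▸ hb.1))
  have hm := hmid a ha.1 b hb.1 (hax.trans hxb) (by
    have h1 := ha.2.1
    have h2 := hb.2.2
    linarith)
  rcases le_total ((a + b) / 2) x with h | h
  · have h1 := ha' (show (a + b) / 2 ∈ T ∩ Icc s x from ⟨hm, by have := ha.2.1; linarith, h⟩)
    linarith
  · have h1 := hb' (show (a + b) / 2 ∈ T ∩ Icc x t from ⟨hm, h, by have := hb.2.2; linarith⟩)
    linarith

lemma da_mod (t0 t : ℝ) : ∃ n : ℤ, t0 ≤ t - n * Real.pi ∧ t - n * Real.pi < t0 + Real.pi := by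
  refine ⟨⌊(t - t0) / Real.pi⌋, ?_, ?_⟩
  · have h1 := Int.floor_le ((t - t0) / Real.pi)
    rw [le_div_iff₀ Real.pi_pos] at h1
    linarith
  · have h1 := Int.lt_floor_add_one ((t - t0) / Real.pi)
    rw [div_lt_iff₀ Real.pi_pos] at h1
    linarith

lemma da_per {N : ℝ × ℝ → ℝ} (hhom : ∀ (c : ℝ) (v : ℝ × ℝ), N (c • v) = |c| * N v) (t : ℝ) (n : ℤ) :
    N (Real.cos (t - n * Real.pi), Real.sin (t - n * Real.pi)) = N (Real.cos t, Real.sin t) := by
  rw [Real.cos_sub_int_mul_pi, Real.sin_sub_int_mul_pi]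
  have : (((-1 : ℝ) ^ n * Real.cos t, (-1 : ℝ) ^ n * Real.sin t) : ℝ × ℝ)
      = ((-1 : ℝ) ^ n) • ((Real.cos t, Real.sin t) : ℝ × ℝ) := by
    simp [Prod.smul_mk]
  rw [this, hhom]
  have h2 : |(-1 : ℝ) ^ n| = 1 := by
    rw [abs_zpow, abs_neg, abs_one, one_zpow]
  rw [h2, one_mul]

/-- the normalised case -/
lemma da_norm {N : ℝ × ℝ → ℝ} (h0 : ∀ v, v ≠ 0 → 0 < N v)
    (hhom : ∀ (c : ℝ) (v : ℝ × ℝ), N (c • v) = |c| * N v)
    (htri : ∀ v w, N (v + w) ≤ N v + N w)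
    (hrh : ∀ v w, 4 * N v * N w ≤ N (v + w) ^ 2 + N (v - w) ^ 2)
    (hle : ∀ v : ℝ × ℝ, N v ^ 2 ≤ v.1 ^ 2 + v.2 ^ 2)
    (hmin : ∀ p q r : ℝ, (∀ v : ℝ × ℝ, N v ^ 2 ≤ qf p q r v) → 1 ≤ p * r - q ^ 2) :
    ∀ v : ℝ × ℝ, N v ^ 2 = v.1 ^ 2 + v.2 ^ 2 := by
  have hcont := da_cont hhom htri
  have hnn := da_nonneg h0 hhom
  let T : Set ℝ := {t | N (Real.cos t, Real.sin t) = 1}
  have hle1 : ∀ t : ℝ, N (Real.cos t, Real.sin t) ≤ 1 := by
    intro t
    have h1 := hle (Real.cos t, Real.sin t)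
    simp only at h1
    rw [Real.cos_sq_add_sin_sq] at h1
    have h2 := hnn (Real.cos t, Real.sin t)
    nlinarith
  have hTc : IsClosed T := by
    have : Continuous fun t : ℝ => N (Real.cos t, Real.sin t) :=
      hcont.comp (Real.continuous_cos.prodMk Real.continuous_sin)
    exact isClosed_eq this continuous_const
  have hmid : ∀ s ∈ T, ∀ t ∈ T, s < t → t - s < Real.pi → (s + t) / 2 ∈ T := by
    intro s hs t ht hst hpi
    have hs' : N (Real.cos s, Real.sin s) = 1 := hs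
    have ht' : N (Real.cos t, Real.sin t) = 1 := ht
    have h1 := hrh (Real.cos s, Real.sin s) (Real.cos t, Real.sin t)
    rw [hs', ht'] at h1
    obtain ⟨m, hm⟩ : ∃ m, m = (s + t) / 2 := ⟨_, rfl⟩
    obtain ⟨δ, hδ⟩ : ∃ δ, δ = (t - s) / 2 := ⟨_, rfl⟩
    have hs2 : s = m - δ := by rw [hm, hδ]; ring
    have ht2 : t = m + δ := by rw [hm, hδ]; ring
    have e1 : ((Real.cos s, Real.sin s) : ℝ × ℝ) + (Real.cos t, Real.sin t)
        = (2 * Real.cos δ) • ((Real.cos m, Real.sin m) : ℝ × ℝ) := by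
      rw [hs2, ht2, Real.cos_sub, Real.cos_add, Real.sin_sub, Real.sin_add]
      ext
      · simp; ring
      · simp; ring
    have e2 : ((Real.cos s, Real.sin s) : ℝ × ℝ) - (Real.cos t, Real.sin t)
        = (2 * Real.sin δ) • ((Real.cos (m - Real.pi / 2), Real.sin (m - Real.pi / 2)) : ℝ × ℝ) := by
      rw [hs2, ht2, Real.cos_sub, Real.cos_add, Real.sin_sub, Real.sin_add, Real.cos_sub_pi_div_two,
        Real.sin_sub_pi_div_two]
      ext
      · simp; ring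
      · simp; ring
    rw [e1, e2, hhom, hhom, mul_pow, mul_pow, sq_abs, sq_abs] at h1
    have h3 := hle1 (m - Real.pi / 2)
    have h4 := hnn (Real.cos (m - Real.pi / 2), Real.sin (m - Real.pi / 2))
    have h5 := hle1 m
    have h6 := hnn (Real.cos m, Real.sin m)
    have h7 := Real.sin_sq_add_cos_sq δ
    have h8 : 0 < Real.cos δ := by
      apply Real.cos_pos_of_mem_Ioo
      constructor
      · rw [hδ]; have := Real.pi_pos; linarith
      · rw [hδ]; linarith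
    have h9 : N (Real.cos (m - Real.pi / 2), Real.sin (m - Real.pi / 2)) ^ 2 ≤ 1 := by nlinarith
    have h10 : 1 ≤ N (Real.cos m, Real.sin m) ^ 2 := by
      have h11 : (2 * Real.sin δ) ^ 2 * N (Real.cos (m - Real.pi / 2), Real.sin (m - Real.pi / 2)) ^ 2
          ≤ (2 * Real.sin δ) ^ 2 * 1 := mul_le_mul_of_nonneg_left h9 (sq_nonneg _)
      have h12 : (2 * Real.cos δ) ^ 2 * 1 ≤ (2 * Real.cos δ) ^ 2 * N (Real.cos m, Real.sin m) ^ 2 := by
        nlinarith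
      exact le_of_mul_le_mul_left h12 (by positivity)
    have h13 : N (Real.cos m, Real.sin m) = 1 := by nlinarith
    rw [← hm]
    exact h13
  -- two contact angles
  have htwo : ∃ t1 ∈ T, ∃ t2 ∈ T, t1 < t2 ∧ t2 < t1 + Real.pi := by
    by_contra hcon
    push Not at hcon
    obtain ⟨t0, ht0⟩ : ∃ t0 : ℝ, T.Nonempty → t0 ∈ T := by
      by_cases h : T.Nonempty
      · exact ⟨h.some, fun _ => h.some_mem⟩
      · exact ⟨0, fun h' => absurd h' h⟩
    have hsin : ∀ t ∈ T, Real.sin (t - t0) = 0 := by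
      intro t ht
      have ht0' := ht0 ⟨t, ht⟩
      obtain ⟨n, hn1, hn2⟩ := da_mod t0 t
      have hn3 : t - n * Real.pi ∈ T := by
        change N _ = 1
        rw [da_per hhom]; exact ht
      rcases hn1.eq_or_lt with h | h
      · have : t - t0 = n * Real.pi := by linarith
        rw [this]; exact Real.sin_int_mul_pi n
      · exact absurd hn2 (not_lt.2 (hcon t0 ht0' _ hn3 h))
    obtain ⟨a, ha⟩ : ∃ a, a = Real.cos t0 := ⟨_, rfl⟩
    obtain ⟨b, hb⟩ : ∃ b, b = Real.sin t0 := ⟨_, rfl⟩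
    have hab : a ^ 2 + b ^ 2 = 1 := by rw [ha, hb]; exact Real.cos_sq_add_sin_sq t0
    let S : Set (ℝ × ℝ) := {v | v.1 ^ 2 + v.2 ^ 2 = 1 ∧
      (a * v.1 + b * v.2) ^ 2 ≤ 2 * (-b * v.1 + a * v.2) ^ 2}
    have hSc : IsCompact S := by
      apply Metric.isCompact_of_isClosed_isBounded
      · have c1 : IsClosed {v : ℝ × ℝ | v.1 ^ 2 + v.2 ^ 2 = 1} :=
          isClosed_eq (by fun_prop) continuous_const
        have c2 : IsClosed {v : ℝ × ℝ | (a * v.1 + b * v.2) ^ 2 ≤ 2 * (-b * v.1 + a * v.2) ^ 2} :=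
          isClosed_le (by fun_prop) (by fun_prop)
        exact c1.inter c2
      · refine (Metric.isBounded_closedBall (x := (0 : ℝ × ℝ)) (r := 1)).subset ?_
        rintro v ⟨hv, -⟩
        rw [mem_closedBall_zero_iff, Prod.norm_def, max_le_iff]
        constructor
        · rw [Real.norm_eq_abs]; exact abs_le_one_iff_mul_self_le_one.2 (by nlinarith [sq_nonneg v.2])
        · rw [Real.norm_eq_abs]; exact abs_le_one_iff_mul_self_le_one.2 (by nlinarith [sq_nonneg v.1])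
    have hSne : S.Nonempty := ⟨(-b, a), by
      constructor
      · simp only; linarith
      · simp only
        have : a * -b + b * a = 0 := by ring
        rw [this, zero_pow two_ne_zero]; positivity⟩
    obtain ⟨v0, hv0, hv0'⟩ := hSc.exists_isMaxOn hSne hcont.continuousOn
    have hlt : N v0 < 1 := by
      obtain ⟨t, ht⟩ := da_polar v0 hv0.1
      rcases (hle1 t).lt_or_eq with h | h
      · rw [ht]; exact h
      · exfalso
        have h1 := hsin t h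
        have h2 := hv0.2
        rw [ht] at h2
        simp only at h2
        rw [Real.sin_sub, ← ha, ← hb] at h1
        have h3 : -b * Real.cos t + a * Real.sin t = 0 := by linarith
        rw [h3] at h2
        have h4 : a * Real.cos t + b * Real.sin t = 0 := by nlinarith
        have h5 := Real.cos_sq_add_sin_sq t
        have h6 : (a * Real.cos t + b * Real.sin t) ^ 2 + (-b * Real.cos t + a * Real.sin t) ^ 2 =
            (a ^ 2 + b ^ 2) * (Real.cos t ^ 2 + Real.sin t ^ 2) := by ring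
        rw [h3, h4, hab, h5] at h6
        norm_num at h6
    have hM0 := hnn v0
    obtain ⟨ε, hε⟩ : ∃ ε : ℝ, ε = (1 - N v0 ^ 2) / 2 := ⟨_, rfl⟩
    have hεpos : 0 < ε := by rw [hε]; nlinarith
    have hkey : ∀ v : ℝ × ℝ, v.1 ^ 2 + v.2 ^ 2 = 1 → N v ^ 2 ≤
        (1 + ε) * (a * v.1 + b * v.2) ^ 2 + (1 - 2 * ε) * (-b * v.1 + a * v.2) ^ 2 := by
      intro v hv
      have h6 : (a * v.1 + b * v.2) ^ 2 + (-b * v.1 + a * v.2) ^ 2 = 1 := by
        have : (a * v.1 + b * v.2) ^ 2 + (-b * v.1 + a * v.2) ^ 2 =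
            (a ^ 2 + b ^ 2) * (v.1 ^ 2 + v.2 ^ 2) := by ring
        rw [this, hab, hv, one_mul]
      by_cases hS : (a * v.1 + b * v.2) ^ 2 ≤ 2 * (-b * v.1 + a * v.2) ^ 2
      · have h7 : N v ≤ N v0 := hv0' (show v ∈ S from ⟨hv, hS⟩)
        have h8 : N v ^ 2 ≤ N v0 ^ 2 := by have := hnn v; nlinarith
        have h9 : N v0 ^ 2 = 1 - 2 * ε := by rw [hε]; ring
        have h10 : 0 ≤ (a * v.1 + b * v.2) ^ 2 := sq_nonneg _
        nlinarith
      · push Not at hS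
        have h7 := hle v
        rw [hv] at h7
        nlinarith
    have hall : ∀ v : ℝ × ℝ, N v ^ 2 ≤ qf ((1 + ε) * a ^ 2 + (1 - 2 * ε) * b ^ 2) (3 * ε * a * b)
        ((1 + ε) * b ^ 2 + (1 - 2 * ε) * a ^ 2) v := by
      intro v
      have e : qf ((1 + ε) * a ^ 2 + (1 - 2 * ε) * b ^ 2) (3 * ε * a * b)
        ((1 + ε) * b ^ 2 + (1 - 2 * ε) * a ^ 2) v =
        (1 + ε) * (a * v.1 + b * v.2) ^ 2 + (1 - 2 * ε) * (-b * v.1 + a * v.2) ^ 2 := by
        unfold qf; ring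
      rw [e]
      by_cases hv : v = 0
      · rw [hv, da_zero hhom]; simp
      have hpos : 0 < v.1 ^ 2 + v.2 ^ 2 := by
        by_contra h
        apply hv
        have h1 : v.1 = 0 := by nlinarith [sq_nonneg v.1, sq_nonneg v.2]
        have h2 : v.2 = 0 := by nlinarith [sq_nonneg v.1, sq_nonneg v.2]
        exact Prod.ext h1 h2
      obtain ⟨ρ, hρ⟩ : ∃ ρ, ρ = Real.sqrt (v.1 ^ 2 + v.2 ^ 2) := ⟨_, rfl⟩
      have hρ0 : 0 < ρ := by rw [hρ]; exact Real.sqrt_pos.2 hpos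
      have hρ2 : ρ ^ 2 = v.1 ^ 2 + v.2 ^ 2 := by rw [hρ]; exact Real.sq_sqrt hpos.le
      have h1 := hkey (ρ⁻¹ • v) (by
        simp only [Prod.smul_fst, Prod.smul_snd, smul_eq_mul]
        rw [mul_pow, mul_pow, ← mul_add, ← hρ2]
        field_simp)
      rw [hhom] at h1
      simp only [Prod.smul_fst, Prod.smul_snd, smul_eq_mul] at h1
      rw [abs_of_pos (inv_pos.2 hρ0)] at h1
      have h2 := mul_le_mul_of_nonneg_left h1 (sq_nonneg ρ)
      have e1 : ρ ^ 2 * (ρ⁻¹ * N v) ^ 2 = N v ^ 2 := by field_simp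
      have e2 : ρ ^ 2 * ((1 + ε) * (a * (ρ⁻¹ * v.1) + b * (ρ⁻¹ * v.2)) ^ 2 +
          (1 - 2 * ε) * (-b * (ρ⁻¹ * v.1) + a * (ρ⁻¹ * v.2)) ^ 2) =
          (1 + ε) * (a * v.1 + b * v.2) ^ 2 + (1 - 2 * ε) * (-b * v.1 + a * v.2) ^ 2 := by
        field_simp
      rwa [e1, e2] at h2
    have hdet := hmin _ _ _ hall
    have e3 : ((1 + ε) * a ^ 2 + (1 - 2 * ε) * b ^ 2) * ((1 + ε) * b ^ 2 + (1 - 2 * ε) * a ^ 2) -
        (3 * ε * a * b) ^ 2 = (1 + ε) * (1 - 2 * ε) * (a ^ 2 + b ^ 2) ^ 2 := by ring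
    rw [e3, hab] at hdet
    nlinarith
  obtain ⟨t1, ht1, t2, ht2, h12, h21⟩ := htwo
  have ht1' : t1 + Real.pi ∈ T := by
    change N _ = 1
    have := da_per hhom (t1 + Real.pi) 1
    have ht1'' : N (Real.cos t1, Real.sin t1) = 1 := ht1
    rw [← this]
    simpa using ht1''
  have i1 := da_interval hTc hmid ht1 ht2 h12 (by linarith)
  have i2 := da_interval hTc hmid ht2 ht1' h21 (by linarith)
  have hTall : ∀ t : ℝ, N (Real.cos t, Real.sin t) = 1 := by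
    intro t
    obtain ⟨n, hn1, hn2⟩ := da_mod t1 t
    rw [← da_per hhom t n]
    rcases le_total (t - n * Real.pi) t2 with h | h
    · exact i1 ⟨hn1, h⟩
    · exact i2 ⟨h, hn2.le⟩
  intro v
  by_cases hv : v = 0
  · rw [hv, da_zero hhom]; simp
  have hpos : 0 < v.1 ^ 2 + v.2 ^ 2 := by
    by_contra h
    apply hv
    have h1 : v.1 = 0 := by nlinarith [sq_nonneg v.1, sq_nonneg v.2]
    have h2 : v.2 = 0 := by nlinarith [sq_nonneg v.1, sq_nonneg v.2]
    exact Prod.ext h1 h2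
  obtain ⟨ρ, hρ⟩ : ∃ ρ, ρ = Real.sqrt (v.1 ^ 2 + v.2 ^ 2) := ⟨_, rfl⟩
  have hρ0 : 0 < ρ := by rw [hρ]; exact Real.sqrt_pos.2 hpos
  have hρ2 : ρ ^ 2 = v.1 ^ 2 + v.2 ^ 2 := by rw [hρ]; exact Real.sq_sqrt hpos.le
  obtain ⟨t, ht⟩ := da_polar (ρ⁻¹ • v) (by
    simp only [Prod.smul_fst, Prod.smul_snd, smul_eq_mul]
    rw [mul_pow, mul_pow, ← mul_add, ← hρ2]
    field_simp)
  have h1 : N (ρ⁻¹ • v) = 1 := by rw [ht]; exact hTall t
  rw [hhom, abs_of_pos (inv_pos.2 hρ0)] at h1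
  rw [← hρ2]
  have h2 : N v = ρ := by
    field_simp at h1
    exact h1
  rw [h2]

/-- existence of a form of least determinant -/
lemma da_exists {N : ℝ × ℝ → ℝ} (h0 : ∀ v, v ≠ 0 → 0 < N v)
    (hhom : ∀ (c : ℝ) (v : ℝ × ℝ), N (c • v) = |c| * N v)
    (htri : ∀ v w, N (v + w) ≤ N v + N w) :
    ∃ p q r : ℝ, 0 < p ∧ 0 < p * r - q ^ 2 ∧ (∀ v : ℝ × ℝ, N v ^ 2 ≤ qf p q r v) ∧
      ∀ p' q' r' : ℝ, (∀ v : ℝ × ℝ, N v ^ 2 ≤ qf p' q' r' v) → p * r - q ^ 2 ≤ p' * r' - q' ^ 2 := by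
  have hcont := da_cont hhom htri
  have hnn := da_nonneg h0 hhom
  let S : Set (ℝ × ℝ) := {v | v.1 ^ 2 + v.2 ^ 2 = 1}
  have hSc : IsCompact S := by
    apply Metric.isCompact_of_isClosed_isBounded
    · exact isClosed_eq (by fun_prop) continuous_const
    · refine (Metric.isBounded_closedBall (x := (0 : ℝ × ℝ)) (r := 1)).subset ?_
      intro v hv
      have hv' : v.1 ^ 2 + v.2 ^ 2 = 1 := hv
      rw [mem_closedBall_zero_iff, Prod.norm_def, max_le_iff]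
      constructor
      · rw [Real.norm_eq_abs]; exact abs_le_one_iff_mul_self_le_one.2 (by nlinarith [sq_nonneg v.2])
      · rw [Real.norm_eq_abs]; exact abs_le_one_iff_mul_self_le_one.2 (by nlinarith [sq_nonneg v.1])
  have hSne : S.Nonempty := ⟨(1, 0), by simp [S]⟩
  obtain ⟨u, hu, hu'⟩ := hSc.exists_isMinOn hSne hcont.continuousOn
  obtain ⟨w, hw, hw'⟩ := hSc.exists_isMaxOn hSne hcont.continuousOn
  have hupos : 0 < N u := h0 u (by
    rintro rfl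
    have : (0 : ℝ × ℝ).1 ^ 2 + (0 : ℝ × ℝ).2 ^ 2 = 1 := hu
    norm_num at this)
  obtain ⟨m, hm⟩ : ∃ m, m = N u ^ 2 / 2 := ⟨_, rfl⟩
  have hmpos : 0 < m := by rw [hm]; positivity
  have hbd : ∀ v : ℝ × ℝ, 2 * m * (v.1 ^ 2 + v.2 ^ 2) ≤ N v ^ 2 ∧
      N v ^ 2 ≤ N w ^ 2 * (v.1 ^ 2 + v.2 ^ 2) := by
    intro v
    by_cases hv : v = 0
    · rw [hv, da_zero hhom]; simp
    have hpos : 0 < v.1 ^ 2 + v.2 ^ 2 := by
      by_contra h
      apply hv
      have h1 : v.1 = 0 := by nlinarith [sq_nonneg v.1, sq_nonneg v.2]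
      have h2 : v.2 = 0 := by nlinarith [sq_nonneg v.1, sq_nonneg v.2]
      exact Prod.ext h1 h2
    obtain ⟨ρ, hρ⟩ : ∃ ρ, ρ = Real.sqrt (v.1 ^ 2 + v.2 ^ 2) := ⟨_, rfl⟩
    have hρ0 : 0 < ρ := by rw [hρ]; exact Real.sqrt_pos.2 hpos
    have hρ2 : ρ ^ 2 = v.1 ^ 2 + v.2 ^ 2 := by rw [hρ]; exact Real.sq_sqrt hpos.le
    have hmem : ρ⁻¹ • v ∈ S := by
      change (ρ⁻¹ • v).1 ^ 2 + (ρ⁻¹ • v).2 ^ 2 = 1
      simp only [Prod.smul_fst, Prod.smul_snd, smul_eq_mul]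
      rw [mul_pow, mul_pow, ← mul_add, ← hρ2]
      field_simp
    have h1 : N u ≤ N (ρ⁻¹ • v) := hu' hmem
    have h2 : N (ρ⁻¹ • v) ≤ N w := hw' hmem
    rw [hhom, abs_of_pos (inv_pos.2 hρ0)] at h1 h2
    have h3 : N v = ρ * (ρ⁻¹ * N v) := by field_simp
    rw [← hρ2]
    constructor
    · have : 2 * m = N u ^ 2 := by rw [hm]; ring
      rw [this, h3, mul_pow, mul_comm]
      gcongr
    · rw [h3, mul_pow, mul_comm]
      have h4 : 0 ≤ ρ⁻¹ * N v := mul_nonneg (inv_nonneg.2 hρ0.le) (hnn v)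
      gcongr
  let K : Set (ℝ × ℝ × ℝ) := {x | (∀ v : ℝ × ℝ, N v ^ 2 ≤ qf x.1 x.2.1 x.2.2 v) ∧
    x.1 * x.2.2 - x.2.1 ^ 2 ≤ N w ^ 4}
  -- properties of the members
  have hprop : ∀ p q r : ℝ, (∀ v : ℝ × ℝ, N v ^ 2 ≤ qf p q r v) →
      0 < p - m ∧ 0 < r - m ∧ q ^ 2 ≤ (p - m) * (r - m) := by
    intro p q r h
    have h1 : ∀ v : ℝ × ℝ, 2 * m * (v.1 ^ 2 + v.2 ^ 2) ≤ qf p q r v := fun v => (hbd v).1.trans (h v)
    have h2 := h1 (1, 0)
    have h3 := h1 (0, 1)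
    have h4 := h1 (-q, p - m)
    simp only [qf] at h2 h3 h4
    have h5 : 0 < p - m := by nlinarith
    have h6 : 0 < r - m := by nlinarith
    refine ⟨h5, h6, ?_⟩
    have h7 : 0 ≤ (p - m) * ((p - m) * (r - m) - q ^ 2) := by
      nlinarith [sq_nonneg q, sq_nonneg (p - m)]
    have := nonneg_of_mul_nonneg_right h7 h5
    linarith
  have hKc : IsCompact K := by
    apply Metric.isCompact_of_isClosed_isBounded
    · have c1 : IsClosed {x : ℝ × ℝ × ℝ | ∀ v : ℝ × ℝ, N v ^ 2 ≤ qf x.1 x.2.1 x.2.2 v} := by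
        have : {x : ℝ × ℝ × ℝ | ∀ v : ℝ × ℝ, N v ^ 2 ≤ qf x.1 x.2.1 x.2.2 v} =
          ⋂ v : ℝ × ℝ, {x : ℝ × ℝ × ℝ | N v ^ 2 ≤ qf x.1 x.2.1 x.2.2 v} := by
          ext x; simp
        rw [this]
        refine isClosed_iInter fun v => isClosed_le continuous_const ?_
        unfold qf
        fun_prop
      have c2 : IsClosed {x : ℝ × ℝ × ℝ | x.1 * x.2.2 - x.2.1 ^ 2 ≤ N w ^ 4} :=
        isClosed_le (by fun_prop) continuous_const
      exact c1.inter c2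
    · obtain ⟨R, hR⟩ : ∃ R, R = (N w ^ 4 + m ^ 2) / m := ⟨_, rfl⟩
      refine (Metric.isBounded_closedBall (x := (0 : ℝ × ℝ × ℝ)) (r := R)).subset ?_
      rintro ⟨p, q, r⟩ ⟨h1, h2⟩
      obtain ⟨h3, h4, h5⟩ := hprop p q r h1
      simp only at h2
      have h6 : p + r ≤ R := by
        rw [hR, le_div_iff₀ hmpos]
        nlinarith
      rw [mem_closedBall_zero_iff, Prod.norm_def, Prod.norm_def]
      simp only [Real.norm_eq_abs]
      have h7 : |q| ≤ p + r := by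
        apply abs_le_of_sq_le_sq
        · nlinarith
        · linarith
      refine max_le ?_ (max_le ?_ ?_)
      · rw [abs_of_pos (by linarith)]; linarith
      · linarith
      · rw [abs_of_pos (by linarith)]; linarith
  have hKne : (N w ^ 2, (0 : ℝ), N w ^ 2) ∈ K := by
    constructor
    · intro v
      have := (hbd v).2
      simp only [qf]
      linarith
    · simp only; apply le_of_eq; ring
  obtain ⟨⟨p, q, r⟩, hx, hx'⟩ := hKc.exists_isMinOn ⟨_, hKne⟩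
    (f := fun x : ℝ × ℝ × ℝ => x.1 * x.2.2 - x.2.1 ^ 2) (by fun_prop)
  obtain ⟨h3, h4, h5⟩ := hprop p q r hx.1
  refine ⟨p, q, r, by linarith, by nlinarith, hx.1, ?_⟩
  intro p' q' r' h'
  by_cases hc : p' * r' - q' ^ 2 ≤ N w ^ 4
  · exact hx' (show (p', q', r') ∈ K from ⟨h', hc⟩)
  · push Not at hc
    exact hx.2.trans hc.le

/-- TARGET A. A norm on the plane with the rhombus inequality is Euclidean (Day / Schoenberg). -/
theorem day (N : ℝ × ℝ → ℝ) (h0 : ∀ v, v ≠ 0 → 0 < N v) (hhom : ∀ (c : ℝ) (v : ℝ × ℝ), N (c • v) = |c| * N v)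
    (htri : ∀ v w, N (v + w) ≤ N v + N w)
    (hrh : ∀ v w, 4 * N v * N w ≤ N (v + w) ^ 2 + N (v - w) ^ 2) :
    ∃ p q r : ℝ, 0 < p ∧ 0 < p * r - q ^ 2 ∧ ∀ v : ℝ × ℝ, N v ^ 2 = qf p q r v := by
  obtain ⟨p, q, r, hp, hD, hle, hmin⟩ := da_exists h0 hhom htri
  refine ⟨p, q, r, hp, hD, ?_⟩
  obtain ⟨α, hα⟩ : ∃ α, α = Real.sqrt p := ⟨_, rfl⟩
  have hα0 : 0 < α := by rw [hα]; exact Real.sqrt_pos.2 hp
  have hα2 : α ^ 2 = p := by rw [hα]; exact Real.sq_sqrt hp.le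
  obtain ⟨γ, hγ⟩ : ∃ γ, γ = Real.sqrt ((p * r - q ^ 2) / p) := ⟨_, rfl⟩
  have hγ0 : 0 < γ := by rw [hγ]; exact Real.sqrt_pos.2 (by positivity)
  have hγ2 : γ ^ 2 = (p * r - q ^ 2) / p := by rw [hγ]; exact Real.sq_sqrt (by positivity)
  obtain ⟨β, hβ⟩ : ∃ β, β = q / α := ⟨_, rfl⟩
  have hαβ : α * β = q := by rw [hβ]; field_simp
  have hβγ : β ^ 2 + γ ^ 2 = r := by
    rw [hγ2, hβ, div_pow, hα2]; field_simp; ring
  let Li : ℝ × ℝ → ℝ × ℝ := fun u => ((u.1 - β * (u.2 / γ)) / α, u.2 / γ)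
  let Lf : ℝ × ℝ → ℝ × ℝ := fun v => (α * v.1 + β * v.2, γ * v.2)
  have hLiLf : ∀ v, Li (Lf v) = v := by
    intro v
    simp only [Li, Lf]
    ext
    · simp only; field_simp; ring
    · simp only; field_simp
  have hQ : ∀ v, (Lf v).1 ^ 2 + (Lf v).2 ^ 2 = qf p q r v := by
    intro v
    simp only [Lf, qf]
    rw [← hβγ, ← hαβ, ← hα2]; ring
  have hLadd : ∀ u v, Li (u + v) = Li u + Li v := by
    intro u v
    simp only [Li]
    ext
    · simp only [Prod.fst_add, Prod.snd_add]; ring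
    · simp only [Prod.snd_add]; ring
  have hLsub : ∀ u v, Li (u - v) = Li u - Li v := by
    intro u v
    simp only [Li]
    ext
    · simp only [Prod.fst_sub, Prod.snd_sub]; ring
    · simp only [Prod.snd_sub]; ring
  have hLsmul : ∀ (c : ℝ) u, Li (c • u) = c • Li u := by
    intro c u
    simp only [Li]
    ext
    · simp only [Prod.smul_fst, Prod.smul_snd, smul_eq_mul]; ring
    · simp only [Prod.smul_snd, smul_eq_mul]; ring
  have hLfLi : ∀ u, Lf (Li u) = u := by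
    intro u
    simp only [Li, Lf]
    ext
    · simp only; field_simp; ring
    · simp only; field_simp
  have hLi0 : ∀ u, u ≠ 0 → Li u ≠ 0 := by
    intro u hu h
    apply hu
    rw [← hLfLi u, h]
    simp [Lf]
  have key := da_norm (N := fun u => N (Li u)) (fun v hv => h0 _ (hLi0 v hv))
    (fun c v => by rw [hLsmul, hhom]) (fun v w => by rw [hLadd]; exact htri _ _)
    (fun v w => by rw [hLadd, hLsub]; exact hrh _ _)
    (fun v => by
      have h1 := hle (Li v)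
      rw [← hQ, hLfLi] at h1
      exact h1)
    (fun p' q' r' h' => by
      have h1 : ∀ v : ℝ × ℝ, N v ^ 2 ≤ qf (p' * α ^ 2) (p' * α * β + q' * α * γ)
          (p' * β ^ 2 + 2 * q' * β * γ + r' * γ ^ 2) v := by
        intro v
        have h2 := h' (Lf v)
        simp only [hLiLf] at h2
        refine h2.trans (le_of_eq ?_)
        simp only [qf, Lf]; ring
      have h3 := hmin _ _ _ h1
      have h4 : p' * α ^ 2 * (p' * β ^ 2 + 2 * q' * β * γ + r' * γ ^ 2) -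
          (p' * α * β + q' * α * γ) ^ 2 = (α ^ 2 * γ ^ 2) * (p' * r' - q' ^ 2) := by ring
      have h5 : α ^ 2 * γ ^ 2 = p * r - q ^ 2 := by rw [hα2, hγ2]; field_simp
      rw [h4, h5] at h3
      have h6 : (p * r - q ^ 2) * 1 ≤ (p * r - q ^ 2) * (p' * r' - q' ^ 2) := by linarith
      exact le_of_mul_le_mul_left h6 hD)
  intro v
  have h1 := key (Lf v)
  simp only [hLiLf] at h1
  rw [h1, hQ]

end Pool.Agent.Helper826.Ptol.JA
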