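import Mathlib
import Pool.Agent.Helper826.Ptol.Header

set_option autoImplicit false

namespace Pool.Agent.Helper826.Ptol.JB

open Set Filter Topology


/-- the algebraic core: a quadratic form vanishing at three pairwise independent vectors -/
lemma beltrami_core (dP dQ dR ξ ζ η : ℝ) (hη : η ≠ 0) (hξ : ξ ≠ 0) (hζ : ζ ≠ 0)
    (hs : ξ + ζ + η ≠ 0)
    (h1 : dP * ξ ^ 2 + 2 * dQ * ξ * ζ + dR * ζ ^ 2 = 0)
    (h2 : dP * (ξ + η) ^ 2 + 2 * dQ * (ξ + η) * ζ + dR * ζ ^ 2 = 0)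
    (h3 : dP * ξ ^ 2 + 2 * dQ * ξ * (ζ + η) + dR * (ζ + η) ^ 2 = 0) :
    dP = 0 ∧ dQ = 0 ∧ dR = 0 := by
  have e2 : dP * (2 * ξ + η) + 2 * dQ * ζ = 0 := by
    have : η * (dP * (2 * ξ + η) + 2 * dQ * ζ) = 0 := by linear_combination h2 - h1
    exact (mul_eq_zero.mp this).resolve_left hη
  have e3 : 2 * dQ * ξ + dR * (2 * ζ + η) = 0 := by
    have : η * (2 * dQ * ξ + dR * (2 * ζ + η)) = 0 := by linear_combination h3 - h1
    exact (mul_eq_zero.mp this).resolve_left hη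
  have hP : dP = 0 := by
    have : dP * (ξ * (η * (ξ + ζ + η))) = 0 := by
      linear_combination (-(2 * ζ + η)) * h1 + ζ ^ 2 * e3 + ξ * (ζ + η) * e2
    exact (mul_eq_zero.mp this).resolve_right
      (mul_ne_zero hξ (mul_ne_zero hη hs))
  have hR : dR = 0 := by
    have : dR * (ζ * (η * (ξ + ζ + η))) = 0 := by
      linear_combination (-(2 * ξ + η)) * h1 + ξ ^ 2 * e2 + ζ * (ξ + η) * e3
    exact (mul_eq_zero.mp this).resolve_right
      (mul_ne_zero hζ (mul_ne_zero hη hs))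
  refine ⟨hP, ?_, hR⟩
  have : dQ * (2 * ζ) = 0 := by
    rw [hP] at e2
    linear_combination e2
  exact (mul_eq_zero.mp this).resolve_right (mul_ne_zero two_ne_zero hζ)

lemma Bq_expand (b : Fin 6 → ℝ) (x v : ℝ × ℝ) :
    Bq b x v = (b 3 - 2 * b 4 * x.2 + b 5 * x.2 ^ 2) * v.1 ^ 2 +
      2 * (-b 1 + b 4 * x.1 + b 2 * x.2 - b 5 * x.1 * x.2) * v.1 * v.2 +
      (b 0 - 2 * b 2 * x.1 + b 5 * x.1 ^ 2) * v.2 ^ 2 := by
  unfold Bq; ring

lemma aq_expand (b : Fin 6 → ℝ) (x : ℝ × ℝ) :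
    aq b x = (b 3 - 2 * b 4 * x.2 + b 5 * x.2 ^ 2) * (b 0 - 2 * b 2 * x.1 + b 5 * x.1 ^ 2) -
      (-b 1 + b 4 * x.1 + b 2 * x.2 - b 5 * x.1 * x.2) ^ 2 := by
  unfold aq; ring

/-- `w(x, z - x) = w(z, z - x)` -/
lemma Bq_swap (b : Fin 6 → ℝ) (x z : ℝ × ℝ) :
    Bq b x (z - x) = Bq b z (z - x) := by
  unfold Bq
  simp only [Prod.fst_sub, Prod.snd_sub]
  ring

lemma qf_pos_of (p q r : ℝ) (hp : 0 < p) (hd : 0 < p * r - q ^ 2) (v : ℝ × ℝ) (hv : v ≠ 0) :
    0 < qf p q r v := by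
  have key : p * qf p q r v = (p * v.1 + q * v.2) ^ 2 + (p * r - q ^ 2) * v.2 ^ 2 := by
    unfold qf; ring
  have h2 : 0 < p * qf p q r v := by
    rw [key]
    by_cases h : v.2 = 0
    · have h1 : v.1 ≠ 0 := by
        intro h1
        exact hv (Prod.ext h1 h)
      rw [h]
      have : 0 < (p * v.1) ^ 2 := by positivity
      nlinarith
    · have h3 : 0 < (p * r - q ^ 2) * v.2 ^ 2 := by positivity
      have h4 : 0 ≤ (p * v.1 + q * v.2) ^ 2 := sq_nonneg _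
      linarith
  exact (mul_pos_iff_of_pos_left hp).mp h2

/-- the interpolation of `B` through the three base points -/
lemma beltrami_interp (a c η P1 Q1 R1 P2 Q2 R2 P3 Q3 R3 : ℝ) (hη : η ≠ 0)
    (h12 : P1 = P2) (h13 : R1 = R3)
    (h23 : P2 - 2 * Q2 + R2 = P3 - 2 * Q3 + R3) :
    ∃ b : Fin 6 → ℝ, (∀ v, Bq b (a, c) v = qf P1 Q1 R1 v) ∧
      (∀ v, Bq b (a + η, c) v = qf P2 Q2 R2 v) ∧ (∀ v, Bq b (a, c + η) v = qf P3 Q3 R3 v) := by
  obtain ⟨α, hα⟩ : ∃ α, α * η = 2 * (Q3 - Q1) := ⟨2 * (Q3 - Q1) / η, by field_simp⟩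
  obtain ⟨β, hβ⟩ : ∃ β, β * η = 2 * (Q2 - Q1) := ⟨2 * (Q2 - Q1) / η, by field_simp⟩
  obtain ⟨γ, hγ⟩ : ∃ γ, γ * η ^ 2 = R2 - R1 + 2 * (Q3 - Q1) :=
    ⟨(R2 - R1 + 2 * (Q3 - Q1)) / η ^ 2, by field_simp⟩
  refine ⟨![R1 + a * α + γ * a ^ 2, -Q1 + (a * β + c * α) / 2 + γ * a * c, α / 2 + γ * a,
    P1 + c * β + γ * c ^ 2, β / 2 + γ * c, γ], ?_, ?_, ?_⟩
  · intro v
    rw [Bq_expand]
    simp only [Matrix.cons_val]
    unfold qf
    ring
  · intro v
    rw [Bq_expand]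
    simp only [Matrix.cons_val]
    unfold qf
    linear_combination (v.1 ^ 2) * h12 + (v.1 * v.2) * hβ - (v.2 ^ 2) * hα + (v.2 ^ 2) * hγ
  · intro v
    rw [Bq_expand]
    simp only [Matrix.cons_val]
    unfold qf
    subst h12
    subst h13
    linear_combination (v.1 * v.2) * hα - (v.1 ^ 2) * hβ + (v.1 ^ 2) * (hγ + h23)

/-- TARGET B. Beltrami algebra. -/
theorem beltrami (U : Set (ℝ × ℝ)) (hU : IsOpen U) (hne : U.Nonempty) (p q r : ℝ × ℝ → ℝ)
    (hpc : ContinuousOn p U) (hqc : ContinuousOn q U) (hrc : ContinuousOn r U)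
    (hp : ∀ x ∈ U, 0 < p x) (hdet : ∀ x ∈ U, 0 < p x * r x - q x ^ 2)
    (hT : ∀ x ∈ U, ∀ z ∈ U,
      (p x * r x - q x ^ 2) ^ 2 * (qf (p z) (q z) (r z) (z - x)) ^ 3 =
        (p z * r z - q z ^ 2) ^ 2 * (qf (p x) (q x) (r x) (z - x)) ^ 3) :
    ∃ b : Fin 6 → ℝ, ∀ x ∈ U, 0 < aq b x ∧ (∀ v, v ≠ 0 → 0 < Bq b x v) ∧
      ∀ v, qf (p x) (q x) (r x) v = Bq b x v / (aq b x) ^ 2 := by
  obtain ⟨⟨a, c⟩, hz1⟩ := hne
  -- the scale factor
  let s : ℝ × ℝ → ℝ := fun x => (p x * r x - q x ^ 2) ^ (-(2 / 3) : ℝ)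
  have hspos : ∀ x ∈ U, 0 < s x := fun x hx => Real.rpow_pos_of_pos (hdet x hx) _
  have hs3 : ∀ x ∈ U, s x ^ 3 * (p x * r x - q x ^ 2) ^ 2 = 1 := by
    intro x hx
    have hD := hdet x hx
    have h1 : s x ^ 3 = (p x * r x - q x ^ 2) ^ (-2 : ℝ) := by
      change ((p x * r x - q x ^ 2) ^ (-(2 / 3) : ℝ)) ^ 3 = _
      rw [← Real.rpow_natCast, ← Real.rpow_mul hD.le]
      norm_num
    have h2 : (p x * r x - q x ^ 2) ^ 2 = (p x * r x - q x ^ 2) ^ (2 : ℝ) := by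
      rw [← Real.rpow_natCast]; norm_num
    rw [h1, h2, ← Real.rpow_add hD]
    norm_num
  have hsc : ContinuousOn s U := by
    have hDc : ContinuousOn (fun x => p x * r x - q x ^ 2) U :=
      (hpc.mul hrc).sub (hqc.pow 2)
    exact hDc.rpow_const (fun x hx => Or.inl (hdet x hx).ne')
  -- the matching relation
  have hstar : ∀ x ∈ U, ∀ z ∈ U, s x * qf (p x) (q x) (r x) (z - x) =
      s z * qf (p z) (q z) (r z) (z - x) := by
    intro x hx z hz
    have h := hT x hx z hz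
    have hsx := hs3 x hx
    have hsz := hs3 z hz
    have hcube : (s x * qf (p x) (q x) (r x) (z - x)) ^ 3 =
        (s z * qf (p z) (q z) (r z) (z - x)) ^ 3 := by
      have hDx : (p x * r x - q x ^ 2) ^ 2 ≠ 0 := pow_ne_zero _ (hdet x hx).ne'
      have hDz : (p z * r z - q z ^ 2) ^ 2 ≠ 0 := pow_ne_zero _ (hdet z hz).ne'
      generalize qf (p x) (q x) (r x) (z - x) = A at *
      generalize qf (p z) (q z) (r z) (z - x) = C at *
      generalize (p x * r x - q x ^ 2) ^ 2 = Dx at *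
      generalize (p z * r z - q z ^ 2) ^ 2 = Dz at *
      have : Dx * Dz * ((s x * A) ^ 3 - (s z * C) ^ 3) = 0 := by
        linear_combination (Dz * A ^ 3) * hsx - (Dx * C ^ 3) * hsz - h
      have h0 := (mul_eq_zero.mp this).resolve_left (mul_ne_zero hDx hDz)
      linarith
    exact (Odd.strictMono_pow (by decide : Odd 3)).injective hcube
  -- base points
  obtain ⟨ε, hε, hball⟩ := Metric.isOpen_iff.mp hU (a, c) hz1
  obtain ⟨η, hη0, hηε⟩ : ∃ η : ℝ, 0 < η ∧ η < ε := ⟨ε / 2, by linarith, by linarith⟩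
  have hz2 : (a + η, c) ∈ U := by
    apply hball
    rw [Metric.mem_ball, Prod.dist_eq]
    simp [abs_of_pos hη0, hηε, hε]
  have hz3 : (a, c + η) ∈ U := by
    apply hball
    rw [Metric.mem_ball, Prod.dist_eq]
    simp [abs_of_pos hη0, hηε, hε]
  have hηne : η ≠ 0 := hη0.ne'
  have hη2 : η ^ 2 ≠ 0 := pow_ne_zero _ hηne
  have m12 : s (a, c) * p (a, c) = s (a + η, c) * p (a + η, c) := by
    have := hstar _ hz1 _ hz2
    simp only [qf, Prod.mk_sub_mk, add_sub_cancel_left, sub_self] at this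
    have h' : η ^ 2 * (s (a, c) * p (a, c) - s (a + η, c) * p (a + η, c)) = 0 := by
      linear_combination this
    have := (mul_eq_zero.mp h').resolve_left hη2
    linarith
  have m13 : s (a, c) * r (a, c) = s (a, c + η) * r (a, c + η) := by
    have := hstar _ hz1 _ hz3
    simp only [qf, Prod.mk_sub_mk, add_sub_cancel_left, sub_self] at this
    have h' : η ^ 2 * (s (a, c) * r (a, c) - s (a, c + η) * r (a, c + η)) = 0 := by
      linear_combination this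
    have := (mul_eq_zero.mp h').resolve_left hη2
    linarith
  have m23 : s (a + η, c) * p (a + η, c) - 2 * (s (a + η, c) * q (a + η, c)) +
      s (a + η, c) * r (a + η, c) = s (a, c + η) * p (a, c + η) -
      2 * (s (a, c + η) * q (a, c + η)) + s (a, c + η) * r (a, c + η) := by
    have := hstar _ hz2 _ hz3
    simp only [qf, Prod.mk_sub_mk, add_sub_cancel_left, sub_self] at this
    have h' : η ^ 2 * ((s (a + η, c) * p (a + η, c) - 2 * (s (a + η, c) * q (a + η, c)) +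
      s (a + η, c) * r (a + η, c)) - (s (a, c + η) * p (a, c + η) -
      2 * (s (a, c + η) * q (a, c + η)) + s (a, c + η) * r (a, c + η))) = 0 := by
      linear_combination this
    have := (mul_eq_zero.mp h').resolve_left hη2
    linarith
  obtain ⟨b, hb1, hb2, hb3⟩ := beltrami_interp a c η _ (s (a, c) * q (a, c)) _ _ _ _ _ _ _
    hηne m12 m13 m23
  -- scaled quadratic forms
  have hqs : ∀ (t p q r : ℝ) (v : ℝ × ℝ), qf (t * p) (t * q) (t * r) v = t * qf p q r v := by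
    intro t p q r v; unfold qf; ring
  -- the difference of the coefficients
  have hgen : ∀ x ∈ U, a - x.1 ≠ 0 → c - x.2 ≠ 0 → (a - x.1) + (c - x.2) + η ≠ 0 →
      (b 3 - 2 * b 4 * x.2 + b 5 * x.2 ^ 2) - s x * p x = 0 ∧
      (-b 1 + b 4 * x.1 + b 2 * x.2 - b 5 * x.1 * x.2) - s x * q x = 0 ∧
      (b 0 - 2 * b 2 * x.1 + b 5 * x.1 ^ 2) - s x * r x = 0 := by
    intro x hx h1 h2 h3
    have k1 : Bq b x ((a, c) - x) = s x * qf (p x) (q x) (r x) ((a, c) - x) := by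
      rw [Bq_swap, hb1, hqs, hstar x hx _ hz1]
    have k2 : Bq b x ((a + η, c) - x) = s x * qf (p x) (q x) (r x) ((a + η, c) - x) := by
      rw [Bq_swap, hb2, hqs, hstar x hx _ hz2]
    have k3 : Bq b x ((a, c + η) - x) = s x * qf (p x) (q x) (r x) ((a, c + η) - x) := by
      rw [Bq_swap, hb3, hqs, hstar x hx _ hz3]
    rw [Bq_expand] at k1 k2 k3
    simp only [qf, Prod.fst_sub, Prod.snd_sub] at k1 k2 k3
    apply beltrami_core _ _ _ (a - x.1) (c - x.2) η hηne h1 h2 h3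
    · linear_combination k1
    · linear_combination k2
    · linear_combination k3
  have hcont1 : ContinuousOn (fun x : ℝ × ℝ =>
      (b 3 - 2 * b 4 * x.2 + b 5 * x.2 ^ 2) - s x * p x) U := by
    refine ContinuousOn.sub (Continuous.continuousOn ?_) (hsc.mul hpc)
    fun_prop
  have hcont2 : ContinuousOn (fun x : ℝ × ℝ =>
      (-b 1 + b 4 * x.1 + b 2 * x.2 - b 5 * x.1 * x.2) - s x * q x) U := by
    refine ContinuousOn.sub (Continuous.continuousOn ?_) (hsc.mul hqc)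
    fun_prop
  have hcont3 : ContinuousOn (fun x : ℝ × ℝ =>
      (b 0 - 2 * b 2 * x.1 + b 5 * x.1 ^ 2) - s x * r x) U := by
    refine ContinuousOn.sub (Continuous.continuousOn ?_) (hsc.mul hrc)
    fun_prop
  -- density
  have hdense : ∀ (f : ℝ × ℝ → ℝ), ContinuousOn f U →
      (∀ x ∈ U, a - x.1 ≠ 0 → c - x.2 ≠ 0 → (a - x.1) + (c - x.2) + η ≠ 0 → f x = 0) →
      ∀ x ∈ U, f x = 0 := by
    intro f hf h0 x hx
    have hline : Tendsto (fun τ : ℝ => (x.1 + τ, x.2 + 2 * τ)) (𝓝[≠] 0) (𝓝 x) := by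
      have : Continuous (fun τ : ℝ => (x.1 + τ, x.2 + 2 * τ)) := by fun_prop
      have h := this.tendsto 0
      simp only [add_zero, mul_zero, Prod.mk.eta] at h
      exact h.mono_left nhdsWithin_le_nhds
    have hlim : Tendsto (fun τ : ℝ => f (x.1 + τ, x.2 + 2 * τ)) (𝓝[≠] 0) (𝓝 (f x)) :=
      ((hf.continuousAt (hU.mem_nhds hx)).tendsto).comp hline
    have hne : ∀ t : ℝ, ∀ᶠ τ : ℝ in 𝓝[≠] 0, τ ≠ t := by
      intro t
      by_cases ht : t = 0
      · rw [ht]; exact self_mem_nhdsWithin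
      · exact nhdsWithin_le_nhds (isOpen_ne.mem_nhds (Ne.symm ht))
    have hev : ∀ᶠ τ : ℝ in 𝓝[≠] 0, f (x.1 + τ, x.2 + 2 * τ) = 0 := by
      filter_upwards [hline.eventually (hU.mem_nhds hx), hne (a - x.1), hne ((c - x.2) / 2),
        hne (((a - x.1) + (c - x.2) + η) / 3)] with τ h1 h2 h3 h4
      refine h0 _ h1 ?_ ?_ ?_
      · intro h; apply h2; simp only at h; linarith
      · intro h; apply h3; simp only at h; linarith
      · intro h; apply h4; simp only at h; linarith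
    have hlim0 : Tendsto (fun τ : ℝ => f (x.1 + τ, x.2 + 2 * τ)) (𝓝[≠] 0) (𝓝 0) :=
      (tendsto_congr' hev).mpr tendsto_const_nhds
    exact tendsto_nhds_unique hlim hlim0
  have hP := hdense _ hcont1 (fun x hx h1 h2 h3 => (hgen x hx h1 h2 h3).1)
  have hQ := hdense _ hcont2 (fun x hx h1 h2 h3 => (hgen x hx h1 h2 h3).2.1)
  have hR := hdense _ hcont3 (fun x hx h1 h2 h3 => (hgen x hx h1 h2 h3).2.2)
  refine ⟨b, fun x hx => ?_⟩
  have hPx : (b 3 - 2 * b 4 * x.2 + b 5 * x.2 ^ 2) = s x * p x := by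
    have := hP x hx; linarith
  have hQx : (-b 1 + b 4 * x.1 + b 2 * x.2 - b 5 * x.1 * x.2) = s x * q x := by
    have := hQ x hx; linarith
  have hRx : (b 0 - 2 * b 2 * x.1 + b 5 * x.1 ^ 2) = s x * r x := by
    have := hR x hx; linarith
  have haq : aq b x = s x ^ 2 * (p x * r x - q x ^ 2) := by
    rw [aq_expand, hPx, hQx, hRx]; ring
  have hBq : ∀ v, Bq b x v = s x * qf (p x) (q x) (r x) v := by
    intro v
    rw [Bq_expand, hPx, hQx, hRx]; unfold qf; ring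
  have hsx := hspos x hx
  have hDx := hdet x hx
  refine ⟨?_, ?_, ?_⟩
  · rw [haq]; positivity
  · intro v hv
    rw [hBq]
    exact mul_pos hsx (qf_pos_of _ _ _ (hp x hx) hDx v hv)
  · intro v
    rw [hBq, haq, eq_div_iff (by positivity)]
    have h3 := hs3 x hx
    linear_combination (s x * qf (p x) (q x) (r x) v) * h3

end Pool.Agent.Helper826.Ptol.JB
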