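import Mathlib
import Pool.Agent.Helper826.Ptol.Header

set_option autoImplicit false

namespace Pool.Agent.Helper826.Ptol.JC

open Set Filter Topology



theorem mixed_abstract (Φ a b A B : ℝ → ℝ → ℝ) (δ : ℝ) (hδ : 0 < δ)
    (h1 : ∀ h k, |h| < δ → |k| < δ → HasDerivAt (fun s => Φ s k) (a h k) h)
    (h2 : ∀ h k, |h| < δ → |k| < δ → HasDerivAt (fun s => Φ h s) (b h k) k)
    (h3 : ∀ h k, |h| < δ → |k| < δ → HasDerivAt (fun s => a h s) (A h k) k)
    (h4 : ∀ h k, |h| < δ → |k| < δ → HasDerivAt (fun s => b s k) (B h k) h)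
    (hA : ContinuousAt (fun P : ℝ × ℝ => A P.1 P.2) (0, 0))
    (hB : ContinuousAt (fun P : ℝ × ℝ => B P.1 P.2) (0, 0)) : A 0 0 = B 0 0 := by
  -- the two expressions of the second difference
  have hm : ∀ h, 0 < h → h < δ → ∃ s1 ∈ Ioo (0 : ℝ) h, ∃ k1 ∈ Ioo (0 : ℝ) h,
      A s1 k1 = (Φ h h - Φ h 0 - Φ 0 h + Φ 0 0) / h / h := by
    intro h h0 hh
    have hab : ∀ s, s ∈ Icc (0 : ℝ) h → |s| < δ := by
      intro s hs
      rw [abs_of_nonneg hs.1]
      exact lt_of_le_of_lt hs.2 hh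
    have hh' : |h| < δ := hab h ⟨h0.le, le_rfl⟩
    have h00 : |(0 : ℝ)| < δ := by rw [abs_zero]; exact hδ
    obtain ⟨s1, hs1, e1⟩ := exists_hasDerivAt_eq_slope (fun s => Φ s h - Φ s 0)
      (fun s => a s h - a s 0) h0
      (fun s hs => ((h1 s h (hab s hs) hh').sub (h1 s 0 (hab s hs) h00)).continuousAt.continuousWithinAt)
      (fun s hs => (h1 s h (hab s ⟨hs.1.le, hs.2.le⟩) hh').sub (h1 s 0 (hab s ⟨hs.1.le, hs.2.le⟩) h00))
    have hs1' : |s1| < δ := hab s1 ⟨hs1.1.le, hs1.2.le⟩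
    obtain ⟨k1, hk1, e2⟩ := exists_hasDerivAt_eq_slope (fun s => a s1 s)
      (fun s => A s1 s) h0
      (fun s hs => (h3 s1 s hs1' (hab s hs)).continuousAt.continuousWithinAt)
      (fun s hs => h3 s1 s hs1' (hab s ⟨hs.1.le, hs.2.le⟩))
    refine ⟨s1, hs1, k1, hk1, ?_⟩
    simp only [sub_zero] at e1 e2
    rw [e2, e1]
    congr 2
    ring
  have hm' : ∀ h, 0 < h → h < δ → ∃ s1 ∈ Ioo (0 : ℝ) h, ∃ k1 ∈ Ioo (0 : ℝ) h,
      B s1 k1 = (Φ h h - Φ h 0 - Φ 0 h + Φ 0 0) / h / h := by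
    intro h h0 hh
    have hab : ∀ s, s ∈ Icc (0 : ℝ) h → |s| < δ := by
      intro s hs
      rw [abs_of_nonneg hs.1]
      exact lt_of_le_of_lt hs.2 hh
    have hh' : |h| < δ := hab h ⟨h0.le, le_rfl⟩
    have h00 : |(0 : ℝ)| < δ := by rw [abs_zero]; exact hδ
    obtain ⟨k1, hk1, e1⟩ := exists_hasDerivAt_eq_slope (fun s => Φ h s - Φ 0 s)
      (fun s => b h s - b 0 s) h0
      (fun s hs => ((h2 h s hh' (hab s hs)).sub (h2 0 s h00 (hab s hs))).continuousAt.continuousWithinAt)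
      (fun s hs => (h2 h s hh' (hab s ⟨hs.1.le, hs.2.le⟩)).sub (h2 0 s h00 (hab s ⟨hs.1.le, hs.2.le⟩)))
    have hk1' : |k1| < δ := hab k1 ⟨hk1.1.le, hk1.2.le⟩
    obtain ⟨s1, hs1, e2⟩ := exists_hasDerivAt_eq_slope (fun s => b s k1)
      (fun s => B s k1) h0
      (fun s hs => (h4 s k1 (hab s hs) hk1').continuousAt.continuousWithinAt)
      (fun s hs => h4 s k1 (hab s ⟨hs.1.le, hs.2.le⟩) hk1')
    refine ⟨s1, hs1, k1, hk1, ?_⟩
    simp only [sub_zero] at e1 e2
    rw [e2, e1]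
    congr 2
    ring
  by_contra hne
  have hε : 0 < |A 0 0 - B 0 0| / 2 := by
    have : 0 < |A 0 0 - B 0 0| := abs_pos.2 (sub_ne_zero.2 hne)
    positivity
  obtain ⟨δ1, hδ1, hc1⟩ := Metric.continuousAt_iff.1 hA _ hε
  obtain ⟨δ2, hδ2, hc2⟩ := Metric.continuousAt_iff.1 hB _ hε
  obtain ⟨h, hh⟩ : ∃ h, h = min δ (min δ1 δ2) / 2 := ⟨_, rfl⟩
  have hminpos : 0 < min δ (min δ1 δ2) := lt_min hδ (lt_min hδ1 hδ2)
  have hh0 : 0 < h := by rw [hh]; positivity
  have hhm : h < min δ (min δ1 δ2) := by rw [hh]; linarith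
  have hhδ : h < δ := lt_of_lt_of_le hhm (min_le_left _ _)
  have hhδ1 : h < δ1 := lt_of_lt_of_le hhm ((min_le_right _ _).trans (min_le_left _ _))
  have hhδ2 : h < δ2 := lt_of_lt_of_le hhm ((min_le_right _ _).trans (min_le_right _ _))
  obtain ⟨s1, hs1, k1, hk1, e1⟩ := hm h hh0 hhδ
  obtain ⟨s2, hs2, k2, hk2, e2⟩ := hm' h hh0 hhδ
  have d1 : dist (A s1 k1) (A 0 0) < |A 0 0 - B 0 0| / 2 := by
    apply hc1 (x := (s1, k1))
    rw [Prod.dist_eq]
    apply max_lt
    · rw [Real.dist_eq, sub_zero, abs_of_pos hs1.1]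
      exact lt_trans hs1.2 hhδ1
    · rw [Real.dist_eq, sub_zero, abs_of_pos hk1.1]
      exact lt_trans hk1.2 hhδ1
  have d2 : dist (B s2 k2) (B 0 0) < |A 0 0 - B 0 0| / 2 := by
    apply hc2 (x := (s2, k2))
    rw [Prod.dist_eq]
    apply max_lt
    · rw [Real.dist_eq, sub_zero, abs_of_pos hs2.1]
      exact lt_trans hs2.2 hhδ2
    · rw [Real.dist_eq, sub_zero, abs_of_pos hk2.1]
      exact lt_trans hk2.2 hhδ2
  rw [e1, ← e2] at d1
  have d3 : dist (A 0 0) (B 0 0) < |A 0 0 - B 0 0| := by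
    calc dist (A 0 0) (B 0 0) ≤ dist (B s2 k2) (A 0 0) + dist (B s2 k2) (B 0 0) :=
          dist_triangle_left _ _ _
      _ < |A 0 0 - B 0 0| / 2 + |A 0 0 - B 0 0| / 2 := add_lt_add d1 d2
      _ = |A 0 0 - B 0 0| := by ring
  rw [Real.dist_eq] at d3
  exact lt_irrefl _ d3

theorem hasDerivAt_bfq (p q r : ℝ) (R e : ℝ × ℝ) (t : ℝ) (hpos : 0 < qf p q r (R + t • e)) :
    HasDerivAt (fun t : ℝ => -(bf p q r (R + t • e) e) / √(qf p q r (R + t • e)))
      (-((p * r - q ^ 2) * (R.1 * e.2 - R.2 * e.1) ^ 2 /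
        (qf p q r (R + t • e) * √(qf p q r (R + t • e))))) t := by
  have hN : HasDerivAt (fun t : ℝ => -(bf p q r (R + t • e) e)) (-(qf p q r e)) t := by
    have h1 : (fun t : ℝ => -(bf p q r (R + t • e) e)) =
        fun t : ℝ => -(bf p q r R e) + t * (-(qf p q r e)) := by
      funext t
      unfold bf qf
      simp only [Prod.fst_add, Prod.snd_add, Prod.smul_fst, Prod.smul_snd, smul_eq_mul]
      ring
    rw [h1]
    have := (hasDerivAt_mul_const (-(qf p q r e)) (x := t)).const_add (-(bf p q r R e))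
    exact this
  have hD : HasDerivAt (fun t : ℝ => qf p q r (R + t • e)) (2 * bf p q r (R + t • e) e) t := by
    have h1 : (fun t : ℝ => qf p q r (R + t • e)) =
        fun t : ℝ => qf p q r R + t * (2 * bf p q r R e) + t ^ 2 * qf p q r e := by
      funext t
      unfold bf qf
      simp only [Prod.fst_add, Prod.snd_add, Prod.smul_fst, Prod.smul_snd, smul_eq_mul]
      ring
    rw [h1]
    have h2 := ((hasDerivAt_mul_const (2 * bf p q r R e) (x := t)).const_add (qf p q r R)).add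
      ((hasDerivAt_pow 2 t).mul_const (qf p q r e))
    have h3 : 2 * bf p q r (R + t • e) e =
        2 * bf p q r R e + ((2 : ℕ) : ℝ) * t ^ (2 - 1) * qf p q r e := by
      unfold bf qf
      simp only [Prod.fst_add, Prod.snd_add, Prod.smul_fst, Prod.smul_snd, smul_eq_mul]
      push_cast
      ring
    rw [h3]
    exact h2
  have hS := hD.sqrt hpos.ne'
  have hsq : √(qf p q r (R + t • e)) ≠ 0 := (Real.sqrt_pos.2 hpos).ne'
  have hQ := hN.div hS hsq
  have e1 : (-((p * r - q ^ 2) * (R.1 * e.2 - R.2 * e.1) ^ 2 /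
        (qf p q r (R + t • e) * √(qf p q r (R + t • e))))) =
      (-(qf p q r e) * √(qf p q r (R + t • e)) - -(bf p q r (R + t • e) e) *
        (2 * bf p q r (R + t • e) e / (2 * √(qf p q r (R + t • e))))) /
        √(qf p q r (R + t • e)) ^ 2 := by
    have hid : (p * r - q ^ 2) * (R.1 * e.2 - R.2 * e.1) ^ 2 =
        qf p q r e * qf p q r (R + t • e) - bf p q r (R + t • e) e ^ 2 := by
      unfold bf qf
      simp only [Prod.fst_add, Prod.snd_add, Prod.smul_fst, Prod.smul_snd, smul_eq_mul]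
      ring
    rw [hid]
    obtain ⟨s, hs⟩ : ∃ s, s = √(qf p q r (R + t • e)) := ⟨_, rfl⟩
    have hs2 : s ^ 2 = qf p q r (R + t • e) := by rw [hs]; exact Real.sq_sqrt hpos.le
    rw [← hs] at hsq ⊢
    rw [← hs2]
    field_simp
    ring
  rw [e1]
  exact hQ

theorem cont_aux (P Q S : ℝ × ℝ → ℝ) (V : ℝ × ℝ → ℝ × ℝ) (c : ℝ) (pt : ℝ × ℝ)
    (hP : ContinuousAt P pt) (hQ : ContinuousAt Q pt) (hS : ContinuousAt S pt)
    (hV : ContinuousAt V pt) (hpos : 0 < qf (P pt) (Q pt) (S pt) (V pt)) :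
    ContinuousAt (fun t => -((P t * S t - Q t ^ 2) * c /
      (qf (P t) (Q t) (S t) (V t) * √(qf (P t) (Q t) (S t) (V t))))) pt := by
  have hq : ContinuousAt (fun t => qf (P t) (Q t) (S t) (V t)) pt := by
    unfold qf
    exact ((hP.mul (hV.fst.pow 2)).add (((continuousAt_const.mul hQ).mul hV.fst).mul hV.snd)).add
      (hS.mul (hV.snd.pow 2))
  exact ((((hP.mul hS).sub (hQ.pow 2)).mul continuousAt_const).div (hq.mul hq.sqrt)
    (mul_pos hpos (Real.sqrt_pos.2 hpos)).ne').neg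

theorem qf_pos' (p q r : ℝ) (v : ℝ × ℝ) (hp : 0 < p) (hdet : 0 < p * r - q ^ 2) (hv : v ≠ 0) :
    0 < qf p q r v := by
  have h1 : p * qf p q r v = (p * v.1 + q * v.2) ^ 2 + (p * r - q ^ 2) * v.2 ^ 2 := by
    unfold qf; ring
  have h2 : 0 < p * qf p q r v := by
    rw [h1]
    by_cases h : v.2 = 0
    · have hv1 : v.1 ≠ 0 := by
        intro h'
        exact hv (Prod.ext h' h)
      rw [h]
      have : 0 < (p * v.1 + q * 0) ^ 2 := by
        have : p * v.1 + q * 0 ≠ 0 := by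
          rw [mul_zero, add_zero]
          exact mul_ne_zero hp.ne' hv1
        positivity
      nlinarith
    · have : 0 < (p * r - q ^ 2) * v.2 ^ 2 := by positivity
      have := sq_nonneg (p * v.1 + q * v.2)
      linarith
  exact (mul_pos_iff_of_pos_left hp).1 h2

/-- TARGET C. Equality of the mixed second derivatives of the distance. -/
theorem mixed (U : Set (ℝ × ℝ)) (hU : IsOpen U) (d : ℝ × ℝ → ℝ × ℝ → ℝ)
    (hs : ∀ x ∈ U, ∀ y ∈ U, d x y = d y x) (p q r : ℝ × ℝ → ℝ)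
    (hpc : ContinuousOn p U) (hqc : ContinuousOn q U) (hrc : ContinuousOn r U)
    (hp : ∀ x ∈ U, 0 < p x) (hdet : ∀ x ∈ U, 0 < p x * r x - q x ^ 2)
    (hd : ∀ x ∈ U, ∀ y ∈ U, x ≠ y → ∀ v : ℝ × ℝ,
      HasDerivAt (fun t : ℝ => d (x + t • v) y)
        (-(bf (p x) (q x) (r x) (y - x) v) / Real.sqrt (qf (p x) (q x) (r x) (y - x))) 0) :
    ∀ x ∈ U, ∀ z ∈ U,
      (p x * r x - q x ^ 2) ^ 2 * (qf (p z) (q z) (r z) (z - x)) ^ 3 =
        (p z * r z - q z ^ 2) ^ 2 * (qf (p x) (q x) (r x) (z - x)) ^ 3 := by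
  intro x hx z hz
  by_cases hxz : x = z
  · rw [hxz]
  have hR : z - x ≠ 0 := sub_ne_zero.2 (Ne.symm hxz)
  obtain ⟨e, he⟩ : ∃ e : ℝ × ℝ, e = (-(z - x).2, (z - x).1) := ⟨_, rfl⟩
  obtain ⟨ρ, hρ⟩ : ∃ ρ : ℝ, ρ = (z - x).1 ^ 2 + (z - x).2 ^ 2 := ⟨_, rfl⟩
  have hρpos : 0 < ρ := by
    rw [hρ]
    by_contra hcon
    push Not at hcon
    apply hR
    have h1 : (z - x).1 = 0 := by nlinarith [sq_nonneg (z - x).1, sq_nonneg (z - x).2]
    have h2 : (z - x).2 = 0 := by nlinarith [sq_nonneg (z - x).1, sq_nonneg (z - x).2]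
    exact Prod.ext h1 h2
  -- neighbourhoods
  have hnb : ∀ y ∈ U, ∃ δ > 0, ∀ h : ℝ, |h| < δ → y + h • e ∈ U := by
    intro y hy
    have hcont : Continuous (fun h : ℝ => y + h • e) := by fun_prop
    have hop : IsOpen ((fun h : ℝ => y + h • e) ⁻¹' U) := hU.preimage hcont
    have h0 : (0 : ℝ) ∈ (fun h : ℝ => y + h • e) ⁻¹' U := by
      show y + (0 : ℝ) • e ∈ U
      rw [zero_smul, add_zero]; exact hy
    obtain ⟨δ, hδ, hb⟩ := Metric.isOpen_iff.1 hop 0 h0
    refine ⟨δ, hδ, fun h hh => hb ?_⟩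
    rw [Metric.mem_ball, Real.dist_eq, sub_zero]
    exact hh
  obtain ⟨δ1, hδ1, hb1⟩ := hnb x hx
  obtain ⟨δ2, hδ2, hb2⟩ := hnb z hz
  have hne : ∀ h k : ℝ, x + h • e ≠ z + k • e := by
    intro h k heq
    have h1 : (z - x) + (k - h) • e = 0 := by
      rw [sub_smul]
      have : z - x + (k • e - h • e) = (z + k • e) - (x + h • e) := by abel
      rw [this, heq, sub_self]
    have h2 : (z - x).1 + (k - h) * e.1 = 0 := congrArg Prod.fst h1
    have h3 : (z - x).2 + (k - h) * e.2 = 0 := congrArg Prod.snd h1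
    have h4 : ρ = 0 := by
      rw [hρ]
      have e1 : e.1 = -(z - x).2 := by rw [he]
      have e2 : e.2 = (z - x).1 := by rw [he]
      rw [e1] at h2
      rw [e2] at h3
      linear_combination (z - x).1 * h2 + (z - x).2 * h3
    exact hρpos.ne' h4
  have hposx : ∀ h k : ℝ, x + h • e ∈ U → 0 < qf (p (x + h • e)) (q (x + h • e)) (r (x + h • e))
      ((z - x - h • e) + k • e) := by
    intro h k hU'
    apply qf_pos' _ _ _ _ (hp _ hU') (hdet _ hU')
    intro h0
    apply hne h k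
    have : (z - x - h • e) + k • e = (z + k • e) - (x + h • e) := by abel
    rw [this] at h0
    exact (sub_eq_zero.1 h0).symm
  have hposz : ∀ h k : ℝ, z + k • e ∈ U → 0 < qf (p (z + k • e)) (q (z + k • e)) (r (z + k • e))
      ((x - z - k • e) + h • e) := by
    intro h k hU'
    apply qf_pos' _ _ _ _ (hp _ hU') (hdet _ hU')
    intro h0
    apply hne h k
    have : (x - z - k • e) + h • e = (x + h • e) - (z + k • e) := by abel
    rw [this] at h0
    exact sub_eq_zero.1 h0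
  -- cross products
  have hcx : ∀ h : ℝ, (z - x - h • e).1 * e.2 - (z - x - h • e).2 * e.1 = ρ := by
    intro h
    have e1 : e.1 = -(z - x).2 := by rw [he]
    have e2 : e.2 = (z - x).1 := by rw [he]
    have a1 : (z - x - h • e).1 = (z - x).1 - h * e.1 := rfl
    have a2 : (z - x - h • e).2 = (z - x).2 - h * e.2 := rfl
    rw [a1, a2, e1, e2, hρ]
    ring
  have hcz : ∀ k : ℝ, (x - z - k • e).1 * e.2 - (x - z - k • e).2 * e.1 = -ρ := by
    intro k
    have e1 : e.1 = -(z - x).2 := by rw [he]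
    have e2 : e.2 = (z - x).1 := by rw [he]
    have a1 : (x - z - k • e).1 = -(z - x).1 - k * e.1 := by
      show x.1 - z.1 - k * e.1 = -(z.1 - x.1) - k * e.1
      ring
    have a2 : (x - z - k • e).2 = -(z - x).2 - k * e.2 := by
      show x.2 - z.2 - k * e.2 = -(z.2 - x.2) - k * e.2
      ring
    rw [a1, a2, e1, e2, hρ]
    ring
  have hmain := mixed_abstract (fun h k => d (x + h • e) (z + k • e))
    (fun h k => -(bf (p (x + h • e)) (q (x + h • e)) (r (x + h • e))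
      ((z - x - h • e) + k • e) e) / √(qf (p (x + h • e)) (q (x + h • e)) (r (x + h • e))
      ((z - x - h • e) + k • e)))
    (fun h k => -(bf (p (z + k • e)) (q (z + k • e)) (r (z + k • e))
      ((x - z - k • e) + h • e) e) / √(qf (p (z + k • e)) (q (z + k • e)) (r (z + k • e))
      ((x - z - k • e) + h • e)))
    (fun h k => -((p (x + h • e) * r (x + h • e) - q (x + h • e) ^ 2) * ρ ^ 2 /
      (qf (p (x + h • e)) (q (x + h • e)) (r (x + h • e)) ((z - x - h • e) + k • e) *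
        √(qf (p (x + h • e)) (q (x + h • e)) (r (x + h • e)) ((z - x - h • e) + k • e)))))
    (fun h k => -((p (z + k • e) * r (z + k • e) - q (z + k • e) ^ 2) * ρ ^ 2 /
      (qf (p (z + k • e)) (q (z + k • e)) (r (z + k • e)) ((x - z - k • e) + h • e) *
        √(qf (p (z + k • e)) (q (z + k • e)) (r (z + k • e)) ((x - z - k • e) + h • e)))))
    (min δ1 δ2) (lt_min hδ1 hδ2) ?_ ?_ ?_ ?_ ?_ ?_
  · -- conclusion
    simp only [zero_smul, add_zero, sub_zero] at hmain
    have px := hposx 0 0 (by rw [zero_smul, add_zero]; exact hx)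
    have pz := hposz 0 0 (by rw [zero_smul, add_zero]; exact hz)
    simp only [zero_smul, add_zero, sub_zero] at px pz
    have hsymm : qf (p z) (q z) (r z) (x - z) = qf (p z) (q z) (r z) (z - x) := by
      have : x - z = -(z - x) := by abel
      rw [this]
      unfold qf
      simp only [Prod.fst_neg, Prod.snd_neg]
      ring
    rw [hsymm] at hmain pz
    obtain ⟨s, hs'⟩ : ∃ s, s = √(qf (p x) (q x) (r x) (z - x)) := ⟨_, rfl⟩
    obtain ⟨w, hw⟩ : ∃ w, w = √(qf (p z) (q z) (r z) (z - x)) := ⟨_, rfl⟩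
    have hs2 : s ^ 2 = qf (p x) (q x) (r x) (z - x) := by rw [hs']; exact Real.sq_sqrt px.le
    have hw2 : w ^ 2 = qf (p z) (q z) (r z) (z - x) := by rw [hw]; exact Real.sq_sqrt pz.le
    have hs0 : 0 < s := by rw [hs']; exact Real.sqrt_pos.2 px
    have hw0 : 0 < w := by rw [hw]; exact Real.sqrt_pos.2 pz
    rw [← hs', ← hw, ← hs2, ← hw2, neg_inj, div_eq_div_iff (by positivity) (by positivity)] at hmain
    have h5 : (p x * r x - q x ^ 2) * w ^ 3 = (p z * r z - q z ^ 2) * s ^ 3 := by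
      have hρ2 : ρ ^ 2 ≠ 0 := by positivity
      apply mul_left_cancel₀ hρ2
      linear_combination hmain
    rw [← hs2, ← hw2]
    calc (p x * r x - q x ^ 2) ^ 2 * (w ^ 2) ^ 3 = ((p x * r x - q x ^ 2) * w ^ 3) ^ 2 := by ring
      _ = ((p z * r z - q z ^ 2) * s ^ 3) ^ 2 := by rw [h5]
      _ = (p z * r z - q z ^ 2) ^ 2 * (s ^ 2) ^ 3 := by ring
  · -- derivative in h
    intro h k hh hk
    have hxU := hb1 h (lt_of_lt_of_le hh (min_le_left _ _))
    have hzU := hb2 k (lt_of_lt_of_le hk (min_le_right _ _))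
    have h1 := hd _ hxU _ hzU (hne h k) e
    have e1 : (z + k • e) - (x + h • e) = (z - x - h • e) + k • e := by abel
    rw [e1] at h1
    have h2 : HasDerivAt (fun s : ℝ => s - h) 1 h := (hasDerivAt_id h).sub_const h
    have h3 : HasDerivAt (fun t : ℝ => d ((x + h • e) + t • e) (z + k • e))
      (-(bf (p (x + h • e)) (q (x + h • e)) (r (x + h • e))
      ((z - x - h • e) + k • e) e) / √(qf (p (x + h • e)) (q (x + h • e)) (r (x + h • e))
      ((z - x - h • e) + k • e))) (h - h) := by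
      rw [sub_self]; exact h1
    have h4 := HasDerivAt.comp (h := fun s : ℝ => s - h) h h3 h2
    rw [mul_one] at h4
    have e2 : (fun s : ℝ => d (x + s • e) (z + k • e)) =
        (fun t : ℝ => d ((x + h • e) + t • e) (z + k • e)) ∘ (fun s : ℝ => s - h) := by
      funext s
      show d (x + s • e) (z + k • e) = d ((x + h • e) + (s - h) • e) (z + k • e)
      congr 1
      rw [sub_smul]
      abel
    rw [e2]
    exact h4
  · -- derivative in k
    intro h k hh hk
    have hxU := hb1 h (lt_of_lt_of_le hh (min_le_left _ _))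
    have hzU := hb2 k (lt_of_lt_of_le hk (min_le_right _ _))
    have h1 := hd _ hzU _ hxU (hne h k).symm e
    have e1 : (x + h • e) - (z + k • e) = (x - z - k • e) + h • e := by abel
    rw [e1] at h1
    have h2 : HasDerivAt (fun s : ℝ => s - k) 1 k := (hasDerivAt_id k).sub_const k
    have h3 : HasDerivAt (fun t : ℝ => d ((z + k • e) + t • e) (x + h • e))
      (-(bf (p (z + k • e)) (q (z + k • e)) (r (z + k • e))
      ((x - z - k • e) + h • e) e) / √(qf (p (z + k • e)) (q (z + k • e)) (r (z + k • e))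
      ((x - z - k • e) + h • e))) (k - k) := by
      rw [sub_self]; exact h1
    have h4 := HasDerivAt.comp (h := fun s : ℝ => s - k) k h3 h2
    rw [mul_one] at h4
    have e2 : (fun s : ℝ => d (x + h • e) (z + s • e)) =ᶠ[𝓝 k]
        (fun t : ℝ => d ((z + k • e) + t • e) (x + h • e)) ∘ (fun s : ℝ => s - k) := by
      have hkn : ∀ᶠ s in 𝓝 k, |s| < min δ1 δ2 :=
        (continuous_abs.continuousAt (x := k)).eventually (gt_mem_nhds hk)
      filter_upwards [hkn] with s hs''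
      have hsU := hb2 s (lt_of_lt_of_le hs'' (min_le_right _ _))
      show d (x + h • e) (z + s • e) = d ((z + k • e) + (s - k) • e) (x + h • e)
      have e3 : (z + k • e) + (s - k) • e = z + s • e := by
        rw [sub_smul]
        abel
      rw [e3]
      exact hs _ hxU _ hsU
    exact h4.congr_of_eventuallyEq e2
  · intro h k hh hk
    have hxU := hb1 h (lt_of_lt_of_le hh (min_le_left _ _))
    have := hasDerivAt_bfq (p (x + h • e)) (q (x + h • e)) (r (x + h • e)) (z - x - h • e) e k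
      (hposx h k hxU)
    rw [hcx] at this
    exact this
  · intro h k hh hk
    have hzU := hb2 k (lt_of_lt_of_le hk (min_le_right _ _))
    have := hasDerivAt_bfq (p (z + k • e)) (q (z + k • e)) (r (z + k • e)) (x - z - k • e) e h
      (hposz h k hzU)
    rw [hcz, neg_sq] at this
    exact this
  · have hcx' : ContinuousAt (fun P : ℝ × ℝ => x + P.1 • e) (0, 0) := by fun_prop
    have hx0 : x + (((0 : ℝ), (0 : ℝ)) : ℝ × ℝ).1 • e = x := by simp
    have hUx : U ∈ 𝓝 x := hU.mem_nhds hx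
    have hpx : ContinuousAt (fun P : ℝ × ℝ => p (x + P.1 • e)) (0, 0) := by
      apply ContinuousAt.comp (g := p) (f := fun P : ℝ × ℝ => x + P.1 • e) _ hcx'
      rw [hx0]; exact hpc.continuousAt hUx
    have hqx : ContinuousAt (fun P : ℝ × ℝ => q (x + P.1 • e)) (0, 0) := by
      apply ContinuousAt.comp (g := q) (f := fun P : ℝ × ℝ => x + P.1 • e) _ hcx'
      rw [hx0]; exact hqc.continuousAt hUx
    have hrx : ContinuousAt (fun P : ℝ × ℝ => r (x + P.1 • e)) (0, 0) := by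
      apply ContinuousAt.comp (g := r) (f := fun P : ℝ × ℝ => x + P.1 • e) _ hcx'
      rw [hx0]; exact hrc.continuousAt hUx
    have hV : ContinuousAt (fun P : ℝ × ℝ => (z - x - P.1 • e) + P.2 • e) (0, 0) := by fun_prop
    exact cont_aux _ _ _ _ (ρ ^ 2) (0, 0) hpx hqx hrx hV
      (hposx 0 0 (by rw [zero_smul, add_zero]; exact hx))
  · have hcz' : ContinuousAt (fun P : ℝ × ℝ => z + P.2 • e) (0, 0) := by fun_prop
    have hz0 : z + (((0 : ℝ), (0 : ℝ)) : ℝ × ℝ).2 • e = z := by simp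
    have hUz : U ∈ 𝓝 z := hU.mem_nhds hz
    have hpz : ContinuousAt (fun P : ℝ × ℝ => p (z + P.2 • e)) (0, 0) := by
      apply ContinuousAt.comp (g := p) (f := fun P : ℝ × ℝ => z + P.2 • e) _ hcz'
      rw [hz0]; exact hpc.continuousAt hUz
    have hqz : ContinuousAt (fun P : ℝ × ℝ => q (z + P.2 • e)) (0, 0) := by
      apply ContinuousAt.comp (g := q) (f := fun P : ℝ × ℝ => z + P.2 • e) _ hcz'
      rw [hz0]; exact hqc.continuousAt hUz
    have hrz : ContinuousAt (fun P : ℝ × ℝ => r (z + P.2 • e)) (0, 0) := by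
      apply ContinuousAt.comp (g := r) (f := fun P : ℝ × ℝ => z + P.2 • e) _ hcz'
      rw [hz0]; exact hrc.continuousAt hUz
    have hV : ContinuousAt (fun P : ℝ × ℝ => (x - z - P.2 • e) + P.1 • e) (0, 0) := by fun_prop
    exact cont_aux _ _ _ _ (ρ ^ 2) (0, 0) hpz hqz hrz hV
      (hposz 0 0 (by rw [zero_smul, add_zero]; exact hz))

end Pool.Agent.Helper826.Ptol.JC
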