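import Mathlib
import Pool.Agent.Helper826.Ptol.Header

set_option autoImplicit false

namespace Pool.Agent.Helper826.Ptol.JJ

open Set Filter Topology


theorem exists_indep {n : ℕ} (hn : 2 ≤ n) (p : EuclideanSpace ℝ (Fin n)) (hp : p ≠ 0) :
    ∃ q, Indep p q := by
  have hlt : Submodule.span ℝ {p} < ⊤ := by
    rw [lt_top_iff_ne_top]
    intro h
    have h1 := finrank_span_singleton (K := ℝ) hp
    rw [h, finrank_top, finrank_euclideanSpace_fin] at h1
    omega
  obtain ⟨q, _, hq⟩ := SetLike.exists_of_lt hlt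
  refine ⟨q, ?_⟩
  intro a b hab
  have hb : b = 0 := by
    by_contra hb
    apply hq
    rw [Submodule.mem_span_singleton]
    refine ⟨-(b⁻¹ * a), ?_⟩
    have h2 : b • q = -(a • p) := by
      rw [eq_neg_iff_add_eq_zero, add_comm]; exact hab
    calc (-(b⁻¹ * a)) • p = b⁻¹ • (-(a • p)) := by rw [smul_neg, smul_smul, neg_smul]
      _ = b⁻¹ • (b • q) := by rw [h2]
      _ = q := by rw [smul_smul, inv_mul_cancel₀ hb, one_smul]
  subst hb
  rw [zero_smul, add_zero, smul_eq_zero] at hab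
  exact ⟨hab.resolve_right hp, rfl⟩

theorem exists_dir {n : ℕ} (hn : 2 ≤ n) (w : EuclideanSpace ℝ (Fin n)) :
    ∃ (p : EuclideanSpace ℝ (Fin n)) (c : ℝ), p ≠ 0 ∧ w = c • p := by
  by_cases hw : w = 0
  · have : Nonempty (Fin n) := ⟨⟨0, by omega⟩⟩
    obtain ⟨p, hp⟩ := exists_ne (0 : EuclideanSpace ℝ (Fin n))
    exact ⟨p, 0, hp, by rw [hw, zero_smul]⟩
  · exact ⟨w, 1, hw, by rw [one_smul]⟩

/-- any two vectors lie in a common plane -/
theorem exists_plane {n : ℕ} (hn : 2 ≤ n) (u v : EuclideanSpace ℝ (Fin n)) :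
    ∃ p q : EuclideanSpace ℝ (Fin n), Indep p q ∧ ∃ s t s' t' : ℝ, u = s • p + t • q ∧
      v = s' • p + t' • q := by
  by_cases h : Indep u v
  · exact ⟨u, v, h, 1, 0, 0, 1, by simp, by simp⟩
  · have key : ∃ (p : EuclideanSpace ℝ (Fin n)) (c c' : ℝ), p ≠ 0 ∧ u = c • p ∧ v = c' • p := by
      unfold Indep at h
      push Not at h
      obtain ⟨a, b, hab, hne⟩ := h
      by_cases ha : a = 0
      · have hb := hne ha
        rw [ha, zero_smul, zero_add, smul_eq_zero] at hab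
        have hv := hab.resolve_left hb
        obtain ⟨p, c, hp, hc⟩ := exists_dir hn u
        exact ⟨p, c, 0, hp, hc, by rw [hv, zero_smul]⟩
      · obtain ⟨p, c, hp, hc⟩ := exists_dir hn v
        refine ⟨p, -(a⁻¹ * b) * c, c, hp, ?_, hc⟩
        have h2 : a • u = -(b • v) := by
          rw [eq_neg_iff_add_eq_zero]; exact hab
        calc u = a⁻¹ • (a • u) := by rw [smul_smul, inv_mul_cancel₀ ha, one_smul]
          _ = a⁻¹ • (-(b • v)) := by rw [h2]
          _ = (-(a⁻¹ * b) * c) • p := by rw [hc, smul_neg, smul_smul, smul_smul, ← neg_smul]; congr 1; ring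
    obtain ⟨p, c, c', hp, hu, hv⟩ := key
    obtain ⟨q, hq⟩ := exists_indep hn p hp
    exact ⟨p, q, hq, c, 0, c', 0, by rw [hu]; simp, by rw [hv]; simp⟩

/-- TARGET J1. A function that is a quadratic form on every plane is a quadratic form. -/
theorem quad_of_planes {n : ℕ} (hn : 2 ≤ n) (Q : EuclideanSpace ℝ (Fin n) → ℝ)
    (hQ : ∀ p q : EuclideanSpace ℝ (Fin n), Indep p q →
      ∃ a b c : ℝ, ∀ s t : ℝ, Q (s • p + t • q) = a * s ^ 2 + 2 * b * s * t + c * t ^ 2) :
    ∃ B : EuclideanSpace ℝ (Fin n) →ₗ[ℝ] EuclideanSpace ℝ (Fin n) →ₗ[ℝ] ℝ,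
      (∀ u v, B u v = B v u) ∧ ∀ v, Q v = B v v := by
  have hadd : ∀ (p q : EuclideanSpace ℝ (Fin n)) (s t s' t' : ℝ),
      (s • p + t • q) + (s' • p + t' • q) = (s + s') • p + (t + t') • q := by
    intro p q s t s' t'; module
  have hsub : ∀ (p q : EuclideanSpace ℝ (Fin n)) (s t s' t' : ℝ),
      (s • p + t • q) - (s' • p + t' • q) = (s - s') • p + (t - t') • q := by
    intro p q s t s' t'; module
  have hsmul : ∀ (p q : EuclideanSpace ℝ (Fin n)) (c s t : ℝ),
      c • (s • p + t • q) = (c * s) • p + (c * t) • q := by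
    intro p q c s t; module
  have hpar : ∀ u v, Q (u + v) + Q (u - v) = 2 * Q u + 2 * Q v := by
    intro u v
    obtain ⟨p, q, hpq, s, t, s', t', rfl, rfl⟩ := exists_plane hn u v
    obtain ⟨a, b, c, h⟩ := hQ p q hpq
    rw [hadd, hsub, h, h, h, h]; ring
  let f : EuclideanSpace ℝ (Fin n) → EuclideanSpace ℝ (Fin n) → ℝ := fun u v => (Q (u + v) - Q (u - v)) / 4
  have hf : ∀ u v, f u v = (Q (u + v) - Q (u - v)) / 4 := fun u v => rfl
  have hsym : ∀ u v, f u v = f v u := by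
    intro u v
    obtain ⟨p, q, hpq, s, t, s', t', rfl, rfl⟩ := exists_plane hn u v
    obtain ⟨a, b, c, h⟩ := hQ p q hpq
    rw [hf, hf, hadd, hadd, hsub, hsub, h, h, h, h]; ring
  have hhom : ∀ (c : ℝ) u v, f (c • u) v = c * f u v := by
    intro k u v
    obtain ⟨p, q, hpq, s, t, s', t', rfl, rfl⟩ := exists_plane hn u v
    obtain ⟨a, b, c, h⟩ := hQ p q hpq
    rw [hf, hf, hsmul, hadd, hadd, hsub, hsub, h, h, h, h]; ring
  have hdiag : ∀ v, Q v = f v v := by
    intro v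
    obtain ⟨p, q, hpq, s, t, s', t', hv, _⟩ := exists_plane hn v v
    obtain ⟨a, b, c, h⟩ := hQ p q hpq
    rw [hf, hv, hadd, hsub, h, h, h]; ring
  have hmid : ∀ u v w, f (u + v) w + f (u - v) w = 2 * f u w := by
    intro u v w
    have e1 := hpar (u + w) v
    have e2 := hpar (u - w) v
    rw [hf, hf, hf]
    rw [show u + v + w = u + w + v by abel, show u + v - w = u - w + v by abel,
      show u - v + w = u + w - v by abel, show u - v - w = u - w - v by abel]
    linarith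
  have hfadd : ∀ s t w, f (s + t) w = f s w + f t w := by
    intro s t w
    have e1 := hmid ((1 / 2 : ℝ) • (s + t)) ((1 / 2 : ℝ) • (s - t)) w
    rw [hhom] at e1
    have e2 : (1 / 2 : ℝ) • (s + t) + (1 / 2 : ℝ) • (s - t) = s := by module
    have e3 : (1 / 2 : ℝ) • (s + t) - (1 / 2 : ℝ) • (s - t) = t := by module
    rw [e2, e3] at e1
    linarith
  refine ⟨LinearMap.mk₂ ℝ f hfadd (fun c u v => hhom c u v) (fun u v w => ?_) (fun c u v => ?_), ?_, ?_⟩
  · rw [hsym u, hfadd, hsym v, hsym w]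
  · rw [hsym u, hhom, hsym v]; rfl
  · intro u v; rw [LinearMap.mk₂_apply, LinearMap.mk₂_apply]; exact hsym u v
  · intro v; rw [LinearMap.mk₂_apply]; exact hdiag v

/-- TARGET J2. A function that is linear on every plane is linear. -/
theorem lin_of_planes {n : ℕ} (hn : 2 ≤ n) (β : EuclideanSpace ℝ (Fin n) → ℝ)
    (hβ : ∀ p q : EuclideanSpace ℝ (Fin n), Indep p q →
      ∃ a b : ℝ, ∀ s t : ℝ, β (s • p + t • q) = a * s + b * t) :
    ∃ ℓ : EuclideanSpace ℝ (Fin n) →ₗ[ℝ] ℝ, ∀ v, β v = ℓ v := by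
  have hadd : ∀ u v, β (u + v) = β u + β v := by
    intro u v
    obtain ⟨p, q, hpq, s, t, s', t', rfl, rfl⟩ := exists_plane hn u v
    obtain ⟨a, b, h⟩ := hβ p q hpq
    rw [show (s • p + t • q) + (s' • p + t' • q) = (s + s') • p + (t + t') • q by module, h, h, h]
    ring
  have hsmul : ∀ (c : ℝ) u, β (c • u) = c • β u := by
    intro c u
    obtain ⟨p, q, hpq, s, t, s', t', hu, _⟩ := exists_plane hn u u
    obtain ⟨a, b, h⟩ := hβ p q hpq
    rw [hu, show c • (s • p + t • q) = (c * s) • p + (c * t) • q by module, h, h, smul_eq_mul]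
    ring
  exact ⟨IsLinearMap.mk' β ⟨hadd, hsmul⟩, fun v => rfl⟩

/-- TARGET J3. A positive definite symmetric bilinear form is the pull-back of the inner product. -/
theorem sqrt_form {n : ℕ} (B : EuclideanSpace ℝ (Fin n) →ₗ[ℝ] EuclideanSpace ℝ (Fin n) →ₗ[ℝ] ℝ)
    (hsym : ∀ u v, B u v = B v u) (hpos : ∀ v, v ≠ 0 → 0 < B v v) :
    ∃ L : EuclideanSpace ℝ (Fin n) ≃ₗ[ℝ] EuclideanSpace ℝ (Fin n),
      ∀ u v, inner ℝ (L u) (L v) = B u v := by
  obtain ⟨v0, hv0⟩ := LinearMap.BilinForm.exists_orthogonal_basis (B := B) ⟨hsym⟩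
  have hfr : Module.finrank ℝ (EuclideanSpace ℝ (Fin n)) = n := finrank_euclideanSpace_fin
  let v1 : Module.Basis (Fin n) ℝ (EuclideanSpace ℝ (Fin n)) := v0.reindex (finCongr hfr)
  have hv1 : ∀ i j, i ≠ j → B (v1 i) (v1 j) = 0 := by
    intro i j hij
    have := hv0 (i := (finCongr hfr).symm i) (j := (finCongr hfr).symm j) (by
      intro h; exact hij ((finCongr hfr).symm.injective h))
    simpa [v1] using this
  have hne : ∀ i, v1 i ≠ 0 := fun i => v1.ne_zero i
  have hB : ∀ i, 0 < B (v1 i) (v1 i) := fun i => hpos _ (hne i)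
  let c : Fin n → ℝˣ := fun i => Units.mk0 ((Real.sqrt (B (v1 i) (v1 i)))⁻¹)
    (inv_ne_zero (Real.sqrt_pos.2 (hB i)).ne')
  let w := v1.unitsSMul c
  have hw : ∀ i, w i = (Real.sqrt (B (v1 i) (v1 i)))⁻¹ • v1 i := by
    intro i
    show (v1.unitsSMul c) i = _
    rw [Module.Basis.unitsSMul_apply]; rfl
  have hwij : ∀ i j, B (w i) (w j) = if i = j then 1 else 0 := by
    intro i j
    rw [hw, hw, map_smul, map_smul, LinearMap.smul_apply, smul_eq_mul, smul_eq_mul]
    split_ifs with h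
    · subst h
      have h1 := Real.mul_self_sqrt (hB i).le
      have h2 := (Real.sqrt_pos.2 (hB i)).ne'
      field_simp
      rw [pow_two, h1]
    · rw [hv1 i j h]; ring
  refine ⟨w.equivFun ≪≫ₗ (WithLp.linearEquiv 2 ℝ (Fin n → ℝ)).symm, ?_⟩
  intro u v
  have hu : B u v = ∑ i, ∑ j, w.equivFun u i * (w.equivFun v j * B (w i) (w j)) := by
    conv_lhs => rw [← w.sum_equivFun u, ← w.sum_equivFun v]
    simp only [map_sum, LinearMap.sum_apply, map_smul, LinearMap.smul_apply, smul_eq_mul]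
    rw [Finset.sum_comm]
    refine Finset.sum_congr rfl fun i _ => ?_
    rw [Finset.mul_sum]
    refine Finset.sum_congr rfl fun j _ => ?_
    ring
  rw [hu]
  simp only [hwij, mul_ite, mul_one, mul_zero, Finset.sum_ite_eq, Finset.mem_univ, if_true]
  rw [PiLp.inner_apply]
  refine Finset.sum_congr rfl fun i _ => ?_
  show inner ℝ (w.equivFun u i) (w.equivFun v i) = _
  simp [mul_comm]

end Pool.Agent.Helper826.Ptol.JJ
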