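import Mathlib
import Pool.Agent.Helper826.Ptol.Header

set_option autoImplicit false

namespace Pool.Agent.Helper826.Ptol.JP

open Set Filter Topology


/-- TARGET P. Plane sections. -/
theorem pullback {E : Type*} [NormedAddCommGroup E] [NormedSpace ℝ E] {U : Set E} {d : E → E → ℝ}
    (h : PM U d) (o : E) {p q : E} (hpq : Indep p q) :
    PM {a : ℝ × ℝ | o + a.1 • p + a.2 • q ∈ U}
      (fun a b => d (o + a.1 • p + a.2 • q) (o + b.1 • p + b.2 • q)) := by
  set L : ℝ × ℝ →ₗ[ℝ] E :=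
    (LinearMap.toSpanSingleton ℝ E p).coprod (LinearMap.toSpanSingleton ℝ E q) with hL
  have hLa : ∀ a : ℝ × ℝ, L a = a.1 • p + a.2 • q := by
    intro a; simp [hL]
  have hker : LinearMap.ker L = ⊥ := by
    rw [LinearMap.ker_eq_bot']
    intro a ha
    rw [hLa] at ha
    obtain ⟨h1, h2⟩ := hpq _ _ ha
    exact Prod.ext h1 h2
  have hLce : IsClosedEmbedding L := LinearMap.isClosedEmbedding_of_injective hker
  obtain ⟨K, hK, hKL⟩ := L.exists_antilipschitzWith hker
  set f : ℝ × ℝ →ᵃ[ℝ] E := AffineMap.const ℝ (ℝ × ℝ) o + L.toAffineMap with hf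
  have hfa : ∀ a : ℝ × ℝ, o + a.1 • p + a.2 • q = f a := by
    intro a
    simp [hf, hLa, add_assoc]
  have hfL : ∀ a : ℝ × ℝ, f a = o + L a := by
    intro a; rw [← hfa, hLa, add_assoc]
  have hfce : IsClosedEmbedding f := by
    have : (f : ℝ × ℝ → E) = (Homeomorph.addLeft o) ∘ L := by
      funext a; simp [hfL]
    rw [this]
    exact (Homeomorph.addLeft o).isClosedEmbedding.comp hLce
  have hfc : Continuous f := hfce.continuous
  have hinj : Function.Injective f := hfce.injective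
  have hdist : ∀ a b : ℝ × ℝ, dist a b ≤ K * dist (f a) (f b) := by
    intro a b
    have := hKL.le_mul_dist a b
    rw [hfL, hfL, dist_add_left]
    exact this
  simp only [hfa]
  have hset : {a : ℝ × ℝ | f a ∈ U} = f ⁻¹' U := rfl
  refine ⟨?_, ?_, ?_, ?_, ?_, ?_, ?_, ?_, ?_, ?_⟩
  · rw [hset]; exact h.isOpen.preimage hfc
  · rw [hset]; exact h.convex.affine_preimage f
  · intro x hx y hy
    rw [h.eq_zero _ hx _ hy]
    exact hinj.eq_iff
  · intro x hx y hy
    exact h.symm _ hx _ hy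
  · intro x hx y hy z hz
    exact h.tri _ hx _ hy _ hz
  · have h1 : ContinuousOn (fun a : (ℝ × ℝ) × (ℝ × ℝ) => (f a.1, f a.2))
        ({a : ℝ × ℝ | f a ∈ U} ×ˢ {a : ℝ × ℝ | f a ∈ U}) :=
      ((hfc.comp continuous_fst).prodMk (hfc.comp continuous_snd)).continuousOn
    exact h.cont.comp h1 (fun a ha => ⟨ha.1, ha.2⟩)
  · intro x hx ε hε
    have hK' : (0 : ℝ) < K := by exact_mod_cast hK
    obtain ⟨δ, hδ, hh⟩ := h.top _ hx (ε / K) (div_pos hε hK')
    refine ⟨δ, hδ, fun y hy hd => ?_⟩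
    have h1 := hh _ hy hd
    calc dist x y ≤ K * dist (f x) (f y) := hdist x y
      _ < K * (ε / K) := mul_lt_mul_of_pos_left h1 hK'
      _ = ε := by field_simp
  · intro x hx r
    have h1 := hfce.isCompact_preimage (h.cpt _ hx r)
    exact h1
  · intro x hx y hy z hz
    rw [h.seg _ hx _ hy _ hz, ← image_segment]
    exact hinj.mem_set_image
  · intro p hp q hq r hr s hs
    exact h.ptol _ hp _ hq _ hr _ hs

end Pool.Agent.Helper826.Ptol.JP
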