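import Mathlib
import Pool.Agent.Helper826.Ptol.Core

set_option autoImplicit false

namespace Pool.Agent.Helper826.Ptol

open Set Filter Topology

variable {E : Type*} [NormedAddCommGroup E] [NormedSpace ℝ E]

/-- chaining lemma -/
theorem chain {g m : ℝ → ℝ} {ε κ T : ℝ} (hκ : 0 < κ)
    (H : ∀ s s' : ℝ, 0 < s → s ≤ s' → s' ≤ T → s' ≤ s * (1 + κ) →
      |g s' - g s| ≤ ε * (m s' - m s)) :
    ∀ s s' : ℝ, 0 < s → s ≤ s' → s' ≤ T → |g s' - g s| ≤ ε * (m s' - m s) := by
  have key : ∀ n : ℕ, ∀ s s' : ℝ, 0 < s → s ≤ s' → s' ≤ T → s' ≤ s * (1 + κ) ^ n →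
      |g s' - g s| ≤ ε * (m s' - m s) := by
    intro n
    induction n with
    | zero =>
      intro s s' hs hss hT hn
      have : s' = s := by
        rw [pow_zero, mul_one] at hn
        linarith
      rw [this]; simp
    | succ n ih =>
      intro s s' hs hss hT hn
      set s2 := min s' (s * (1 + κ)) with hs2
      have h1 : s ≤ s2 := le_min hss (by nlinarith)
      have h2 : s2 ≤ s' := min_le_left _ _
      have h3 : s2 ≤ s * (1 + κ) := min_le_right _ _
      have h4 : s' ≤ s2 * (1 + κ) ^ n := by
        rcases min_choice s' (s * (1 + κ)) with h5 | h5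
        · rw [hs2, h5]
          have : 1 ≤ (1 + κ) ^ n := one_le_pow₀ (by linarith)
          have hs' : 0 < s' := by linarith
          nlinarith
        · rw [hs2, h5]
          rw [pow_succ] at hn
          calc s' ≤ s * ((1 + κ) ^ n * (1 + κ)) := hn
            _ = s * (1 + κ) * (1 + κ) ^ n := by ring
      have a1 := H s s2 hs h1 (h2.trans hT) h3
      have a2 := ih s2 s' (by linarith) h2 hT h4
      calc |g s' - g s| = |(g s' - g s2) + (g s2 - g s)| := by ring_nf
        _ ≤ |g s' - g s2| + |g s2 - g s| := abs_add_le _ _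
        _ ≤ ε * (m s' - m s2) + ε * (m s2 - m s) := add_le_add a2 a1
        _ = ε * (m s' - m s) := by ring
  intro s s' hs hss hT
  obtain ⟨n, hn⟩ := pow_unbounded_of_one_lt (s' / s) (by linarith : (1 : ℝ) < 1 + κ)
  refine key n s s' hs hss hT ?_
  rw [div_lt_iff₀ hs] at hn
  linarith

namespace PM

variable {U : Set E} {d : E → E → ℝ} (h : PM U d)
include h

theorem two_add {x v : E} {s t : ℝ} (hx : x ∈ U) (hs : 0 ≤ s) (hst : s ≤ t) (ht : x + t • v ∈ U) :
    d (x + s • v) (x + t • v) = d x (x + t • v) - d x (x + s • v) := by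
  have := h.add_of_le hx hs hst ht
  linarith

/-- The discrete step. -/
theorem tri_step {X A B : E} {s s' ε α β κ : ℝ} (hX : X ∈ U) (hAB : Indep A B) (hs : 0 < s)
    (hss : s < s') (hA' : X + s' • A ∈ U) (hB' : X + s' • B ∈ U) (hκ : s' ≤ s * (1 + κ))
    (H1 : ∀ l : ℝ, 0 ≤ l → l ≤ κ → |C d (X + s' • A) (A - B + l • A) A - α| ≤ ε)
    (H2 : ∀ l : ℝ, 0 ≤ l → l ≤ κ → |C d (X + s • A) (A - B - l • B) A - α| ≤ ε)
    (H3 : |C d (X + s' • B) (A - B) B - β| ≤ ε)
    (H4 : |C d (X + s • B) (A - B) B - β| ≤ ε) :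
    |(d (X + s' • A) (X + s' • B) - α * d X (X + s' • A) + β * d X (X + s' • B)) -
      (d (X + s • A) (X + s • B) - α * d X (X + s • A) + β * d X (X + s • B))| ≤
    ε * ((d X (X + s' • A) + d X (X + s' • B)) - (d X (X + s • A) + d X (X + s • B))) := by
  have hAs : X + s • A ∈ U := h.mem_of_le hX hs.le hss.le hA'
  have hBs : X + s • B ∈ U := h.mem_of_le hX hs.le hss.le hB'
  have hs' : 0 < s' := hs.trans hss
  have hA0 := hAB.ne_left
  have hB0 := hAB.ne_right
  -- nonvanishing of combinations
  have hcomb : ∀ a b : ℝ, a ≠ 0 → a • A + b • B ≠ 0 := by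
    intro a b ha h0
    exact ha (hAB a b h0).1
  have hcombB : ∀ a b : ℝ, b ≠ 0 → a • A + b • B ≠ 0 := by
    intro a b ha h0
    exact ha (hAB a b h0).2
  have eA := h.two_add hX hs.le hss.le hA'
  have eB := h.two_add hX hs.le hss.le hB'
  have pA : 0 ≤ d X (X + s' • A) - d X (X + s • A) := by
    rw [← eA]; exact h.nonneg hAs hA'
  have pB : 0 ≤ d X (X + s' • B) - d X (X + s • B) := by
    rw [← eB]; exact h.nonneg hBs hB'
  have symA := h.symm _ hAs _ hA'
  have symB := h.symm _ hBs _ hB'
  have hne1 : X + s' • A ≠ X + s' • B := by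
    intro h0
    apply hcomb s' (-s') hs'.ne'
    have : s' • A + (-s') • B = (X + s' • A) - (X + s' • B) := by module
    rw [this, h0, sub_self]
  have hne2 : X + s • A ≠ X + s • B := by
    intro h0
    apply hcomb s (-s) hs.ne'
    have : s • A + (-s) • B = (X + s • A) - (X + s • B) := by module
    rw [this, h0, sub_self]
  have hne3 : X + s • B ≠ X + s' • B := by
    intro h0
    apply hcombB 0 (s - s') (by linarith)
    have : (0 : ℝ) • A + (s - s') • B = (X + s • B) - (X + s' • B) := by module
    rw [this, h0, sub_self]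
  have hne4 : X + s • A ≠ X + s' • A := by
    intro h0
    apply hcomb (s - s') 0 (by linarith)
    have : (s - s') • A + (0 : ℝ) • B = (X + s • A) - (X + s' • A) := by module
    rw [this, h0, sub_self]
  have hne5 : X + s • B ≠ X + s' • A := by
    intro h0
    apply hcomb (-s') s (by linarith)
    have : (-s') • A + s • B = (X + s • B) - (X + s' • A) := by module
    rw [this, h0, sub_self]
  have hne6 : X + s' • B ≠ X + s • A := by
    intro h0
    apply hcomb (-s) s' (by linarith)
    have : (-s) • A + s' • B = (X + s' • B) - (X + s • A) := by module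
    rw [this, h0, sub_self]
  have hW : A - B ≠ 0 := by
    have := hcomb 1 (-1) one_ne_zero
    intro h0; apply this
    have e : (1 : ℝ) • A + (-1 : ℝ) • B = A - B := by module
    rw [e, h0]
  set l := (s' - s) / s with hl
  have hl0 : 0 ≤ l := div_nonneg (by linarith) hs.le
  have hlκ : l ≤ κ := by
    rw [hl, div_le_iff₀ hs]; linarith
  have hWl : A - B + l • A ≠ 0 := by
    have := hcomb (1 + l) (-1) (by positivity)
    intro h0; apply this
    have e : (1 + l) • A + (-1 : ℝ) • B = A - B + l • A := by module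
    rw [e, h0]
  have hWl' : A - B - l • B ≠ 0 := by
    have := hcomb 1 (-1 - l) one_ne_zero
    intro h0; apply this
    have e : (1 : ℝ) • A + (-1 - l) • B = A - B - l • B := by module
    rw [e, h0]
  -- upper bound, step 1: base `X + s'B`, target `X + s'A`, moving to `X + sB`
  have u1 := h.support hB' hA' hBs hne1 hne3
  have c1 : C d (X + s' • B) (X + s' • A - (X + s' • B)) (X + s • B - (X + s' • B)) =
      - C d (X + s' • B) (A - B) B := by
    have e1 : X + s' • A - (X + s' • B) = s' • (A - B) := by module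
    have e2 : X + s • B - (X + s' • B) = (s' - s) • (-B) := by module
    rw [e1, e2, h.C_smul_left hB' hW (smul_ne_zero (by linarith) (neg_ne_zero.2 hB0)) hs',
      h.C_smul_right hB' hW (neg_ne_zero.2 hB0) (by linarith), h.C_neg_right hB' hW hB0]
  -- step 2: base `X + s'A`, target `X + sB`, moving to `X + sA`
  have u2 := h.support hA' hBs hAs hne5 hne4
  have c2 : C d (X + s' • A) (X + s • B - (X + s' • A)) (X + s • A - (X + s' • A)) =
      C d (X + s' • A) (A - B + l • A) A := by
    have e1 : X + s • B - (X + s' • A) = s • (-(A - B + l • A)) := by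
      have : s • (l • A) = (s' - s) • A := by
        rw [smul_smul, hl, mul_div_cancel₀ _ hs.ne']
      rw [smul_neg, smul_add, this]; module
    have e2 : X + s • A - (X + s' • A) = (s' - s) • (-A) := by module
    rw [e1, e2, h.C_smul_left hA' (neg_ne_zero.2 hWl)
      (smul_ne_zero (by linarith) (neg_ne_zero.2 hA0)) hs,
      h.C_smul_right hA' (neg_ne_zero.2 hWl) (neg_ne_zero.2 hA0) (by linarith),
      h.C_neg_right hA' (neg_ne_zero.2 hWl) hA0, h.C_neg_left hA' hWl hA0, neg_neg]
  -- lower bound, step 1: base `X + sB`, target `X + sA`, moving to `X + s'B`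
  have u3 := h.support hBs hAs hB' hne2 hne3.symm
  have c3 : C d (X + s • B) (X + s • A - (X + s • B)) (X + s' • B - (X + s • B)) =
      C d (X + s • B) (A - B) B := by
    have e1 : X + s • A - (X + s • B) = s • (A - B) := by module
    have e2 : X + s' • B - (X + s • B) = (s' - s) • B := by module
    rw [e1, e2, h.C_smul_left hBs hW (smul_ne_zero (by linarith) hB0) hs,
      h.C_smul_right hBs hW hB0 (by linarith)]
  -- step 2: base `X + sA`, target `X + s'B`, moving to `X + s'A`
  have u4 := h.support hAs hB' hA' hne6 hne4.symm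
  have c4 : C d (X + s • A) (X + s' • B - (X + s • A)) (X + s' • A - (X + s • A)) =
      - C d (X + s • A) (A - B - l • B) A := by
    have e1 : X + s' • B - (X + s • A) = s • (-(A - B - l • B)) := by
      have : s • (l • B) = (s' - s) • B := by
        rw [smul_smul, hl, mul_div_cancel₀ _ hs.ne']
      rw [smul_neg, smul_sub, this]; module
    have e2 : X + s' • A - (X + s • A) = (s' - s) • A := by module
    rw [e1, e2, h.C_smul_left hAs (neg_ne_zero.2 hWl')
      (smul_ne_zero (by linarith) hA0) hs,
      h.C_smul_right hAs (neg_ne_zero.2 hWl') hA0 (by linarith),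
      h.C_neg_left hAs hWl' hA0]
  rw [c1] at u1
  rw [c2] at u2
  rw [c3] at u3
  rw [c4] at u4
  have k1 := abs_le.1 (H1 l hl0 hlκ)
  have k2 := abs_le.1 (H2 l hl0 hlκ)
  have k3 := abs_le.1 H3
  have k4 := abs_le.1 H4
  have sy1 := h.symm _ hB' _ hA'
  have sy2 := h.symm _ hBs _ hA'
  have sy3 := h.symm _ hBs _ hAs
  have sy4 := h.symm _ hB' _ hAs
  have m1 : C d (X + s' • A) (A - B + l • A) A * (d X (X + s' • A) - d X (X + s • A)) ≤
      (α + ε) * (d X (X + s' • A) - d X (X + s • A)) :=
    mul_le_mul_of_nonneg_right (by linarith [k1.2]) pA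
  have m2 : (α - ε) * (d X (X + s' • A) - d X (X + s • A)) ≤
      C d (X + s • A) (A - B - l • B) A * (d X (X + s' • A) - d X (X + s • A)) :=
    mul_le_mul_of_nonneg_right (by linarith [k2.1]) pA
  have m3 : (β - ε) * (d X (X + s' • B) - d X (X + s • B)) ≤
      C d (X + s' • B) (A - B) B * (d X (X + s' • B) - d X (X + s • B)) :=
    mul_le_mul_of_nonneg_right (by linarith [k3.1]) pB
  have m4 : C d (X + s • B) (A - B) B * (d X (X + s' • B) - d X (X + s • B)) ≤
      (β + ε) * (d X (X + s' • B) - d X (X + s • B)) :=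
    mul_le_mul_of_nonneg_right (by linarith [k4.2]) pB
  rw [← symB, eB] at u1
  rw [← symA, eA] at u2
  rw [eB] at u3
  rw [eA] at u4
  rw [abs_le]
  constructor
  · linarith
  · linarith

end PM

end Pool.Agent.Helper826.Ptol
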