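import Mathlib
import Pool.Agent.Helper826.Ptol.Tri

set_option autoImplicit false

namespace Pool.Agent.Helper826.Ptol

open Set Filter Topology

variable {E : Type*} [NormedAddCommGroup E] [NormedSpace ℝ E]

/-- the joint filter -/
abbrev JF (x : E) : Filter (E × ℝ) := 𝓝 x ×ˢ 𝓝[>] (0 : ℝ)

theorem JF_fst (x : E) : Tendsto (fun p : E × ℝ => p.1) (JF x) (𝓝 x) := tendsto_fst

theorem JF_snd (x : E) : Tendsto (fun p : E × ℝ => p.2) (JF x) (𝓝[>] (0 : ℝ)) := tendsto_snd

theorem JF_snd0 (x : E) : Tendsto (fun p : E × ℝ => p.2) (JF x) (𝓝 (0 : ℝ)) :=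
  (JF_snd x).mono_right nhdsWithin_le_nhds

theorem JF_pos (x : E) : ∀ᶠ p : E × ℝ in JF x, 0 < p.2 :=
  (JF_snd x).eventually self_mem_nhdsWithin

theorem JF_add (x A : E) : Tendsto (fun p : E × ℝ => p.1 + p.2 • A) (JF x) (𝓝 x) := by
  have h1 := (JF_fst x).add ((JF_snd0 x).smul_const A)
  simpa using h1

theorem JF_shift (x A : E) :
    Tendsto (fun p : E × ℝ => ((p.1 + p.2 • A, p.2) : E × ℝ)) (JF x) (JF x) :=
  (JF_add x A).prodMk (JF_snd x)

theorem JF_left {x : E} : Tendsto (fun t : ℝ => ((x, t) : E × ℝ)) (𝓝[>] (0 : ℝ)) (JF x) :=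
  tendsto_const_nhds.prodMk tendsto_id

/-- linear algebra with small errors -/
theorem tendsto_of_approx {α : Type*} {l : Filter α} {r : α → ℝ} {k m : ℝ} (hk : 0 < k)
    (hr : ∀ᶠ a in l, 0 ≤ r a)
    (H : ∀ ε : ℝ, 0 < ε → ∀ᶠ a in l, |r a * k - m| ≤ ε * (3 + 2 * r a)) :
    Tendsto r l (𝓝 (m / k)) := by
  rw [Metric.tendsto_nhds]
  intro δ hδ
  set M := 2 * (|m| + k) / k with hM
  have hM0 : 0 ≤ M := by positivity
  set ε := min (k / 4) (δ * k / (2 * (3 + 2 * M))) with hε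
  have hε0 : 0 < ε := lt_min (by positivity) (by positivity)
  filter_upwards [hr, H ε hε0] with a h1 h2
  have e1 : ε ≤ k / 4 := min_le_left _ _
  have e2 : ε ≤ δ * k / (2 * (3 + 2 * M)) := min_le_right _ _
  have hra : r a ≤ M := by
    rw [hM, le_div_iff₀ hk]
    have h3 := (abs_le.1 h2).2
    have h4 := le_abs_self m
    nlinarith
  have h5 : |r a * k - m| ≤ δ * k / 2 := by
    calc |r a * k - m| ≤ ε * (3 + 2 * r a) := h2
      _ ≤ ε * (3 + 2 * M) := by
          apply mul_le_mul_of_nonneg_left _ hε0.le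
          linarith
      _ ≤ δ * k / (2 * (3 + 2 * M)) * (3 + 2 * M) :=
          mul_le_mul_of_nonneg_right e2 (by positivity)
      _ = δ * k / 2 := by
          field_simp
  rw [Real.dist_eq]
  have h6 : r a - m / k = (r a * k - m) / k := by
    field_simp
  rw [h6, abs_div, abs_of_pos hk, div_lt_iff₀ hk]
  nlinarith

namespace PM

variable {U : Set E} {d : E → E → ℝ} (h : PM U d)
include h

theorem JF_mem {x : E} (hx : x ∈ U) (A : E) : ∀ᶠ p : E × ℝ in JF x, p.1 + p.2 • A ∈ U :=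
  (JF_add x A).eventually (h.isOpen.mem_nhds hx)

theorem JF_mem0 {x : E} (hx : x ∈ U) : ∀ᶠ p : E × ℝ in JF x, p.1 ∈ U :=
  (JF_fst x).eventually (h.isOpen.mem_nhds hx)

theorem tendsto_C3 {x u v : E} (hx : x ∈ U) (hu : u ≠ 0) (hv : v ≠ 0) {α : Type*} {l : Filter α}
    {f g k : α → E} (hf : Tendsto f l (𝓝 x)) (hg : Tendsto g l (𝓝 u)) (hk : Tendsto k l (𝓝 v)) :
    Tendsto (fun a => C d (f a) (g a) (k a)) l (𝓝 (C d x u v)) := by
  have h1 : Tendsto (fun p : E × E × E => C d p.1 p.2.1 p.2.2) (𝓝 (x, u, v)) (𝓝 (C d x u v)) :=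
    (h.C_continuousAt hx hu hv).tendsto
  have h2 : Tendsto (fun a => (f a, g a, k a)) l (𝓝 (x, u, v)) :=
    hf.prodMk_nhds (hg.prodMk_nhds hk)
  have h3 := Tendsto.comp (g := fun p : E × E × E => C d p.1 p.2.1 p.2.2) h1 h2
  have e : ((fun p : E × E × E => C d p.1 p.2.1 p.2.2) ∘ fun a => (f a, g a, k a)) =
      fun a => C d (f a) (g a) (k a) := rfl
  rw [e] at h3
  exact h3

/-- Triangle lemma -/
theorem triangle {x A B : E} (hx : x ∈ U) (hAB : Indep A B) {ε : ℝ} (hε : 0 < ε) :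
    ∀ᶠ p : E × ℝ in JF x,
      |d (p.1 + p.2 • A) (p.1 + p.2 • B) - C d x (A - B) A * d p.1 (p.1 + p.2 • A) +
        C d x (A - B) B * d p.1 (p.1 + p.2 • B)| ≤
      ε * (d p.1 (p.1 + p.2 • A) + d p.1 (p.1 + p.2 • B)) := by
  have hA0 := hAB.ne_left
  have hB0 := hAB.ne_right
  have hW : A - B ≠ 0 := by
    intro h0
    have := hAB 1 (-1) (by rw [← h0]; module)
    exact one_ne_zero this.1
  have cA' : Tendsto (fun p : E × E => C d p.1 p.2 A) (𝓝 (x, A - B)) (𝓝 (C d x (A - B) A)) :=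
    h.tendsto_C3 hx hW hA0 (continuous_fst.tendsto _) (continuous_snd.tendsto _) tendsto_const_nhds
  have cB' : Tendsto (fun p : E => C d p (A - B) B) (𝓝 x) (𝓝 (C d x (A - B) B)) :=
    h.tendsto_C3 hx hW hB0 tendsto_id tendsto_const_nhds tendsto_const_nhds
  have eA : ∀ᶠ p : E × E in 𝓝 (x, A - B), |C d p.1 p.2 A - C d x (A - B) A| ≤ ε := by
    have := (Metric.tendsto_nhds.1 cA') ε hε
    filter_upwards [this] with p hp
    rw [Real.dist_eq] at hp
    exact hp.le
  have eB : ∀ᶠ p : E in 𝓝 x, |C d p (A - B) B - C d x (A - B) B| ≤ ε := by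
    have := (Metric.tendsto_nhds.1 cB') ε hε
    filter_upwards [this] with p hp
    rw [Real.dist_eq] at hp
    exact hp.le
  rw [nhds_prod_eq] at eA
  obtain ⟨N1, hN1, M1, hM1, hNM⟩ := Filter.eventually_prod_iff.1 eA
  -- choose κ
  obtain ⟨κ, hκ, hκ1, hκ2⟩ : ∃ κ : ℝ, 0 < κ ∧ (∀ l : ℝ, 0 ≤ l → l ≤ κ → M1 (A - B + l • A)) ∧
      (∀ l : ℝ, 0 ≤ l → l ≤ κ → M1 (A - B - l • B)) := by
    have t1 : Tendsto (fun l : ℝ => A - B + l • A) (𝓝 0) (𝓝 (A - B)) := by
      have : Continuous (fun l : ℝ => A - B + l • A) := by fun_prop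
      simpa using this.tendsto 0
    have t2 : Tendsto (fun l : ℝ => A - B - l • B) (𝓝 0) (𝓝 (A - B)) := by
      have : Continuous (fun l : ℝ => A - B - l • B) := by fun_prop
      simpa using this.tendsto 0
    have := (t1.eventually hM1).and (t2.eventually hM1)
    rw [Metric.eventually_nhds_iff] at this
    obtain ⟨δ, hδ, hh⟩ := this
    refine ⟨δ / 2, by positivity, ?_, ?_⟩
    · intro l hl0 hl1
      exact (hh (y := l) (by rw [Real.dist_eq, sub_zero, abs_of_nonneg hl0]; linarith)).1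
    · intro l hl0 hl1
      exact (hh (y := l) (by rw [Real.dist_eq, sub_zero, abs_of_nonneg hl0]; linarith)).2
  -- choose a ball
  have hUx : ∀ᶠ z in 𝓝 x, z ∈ U := h.isOpen.mem_nhds hx
  have hball : ∀ᶠ z in 𝓝 x, z ∈ U ∧ N1 z ∧ |C d z (A - B) B - C d x (A - B) B| ≤ ε :=
    hUx.and (hN1.and eB)
  obtain ⟨ρ, hρ, hb⟩ := Metric.eventually_nhds_iff_ball.1 hball
  have i0 : ∀ᶠ p : E × ℝ in JF x, p.1 ∈ Metric.ball x ρ :=
    (JF_fst x).eventually (Metric.ball_mem_nhds x hρ)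
  have i1 : ∀ᶠ p : E × ℝ in JF x, p.1 + p.2 • A ∈ Metric.ball x ρ :=
    (JF_add x A).eventually (Metric.ball_mem_nhds x hρ)
  have i2 : ∀ᶠ p : E × ℝ in JF x, p.1 + p.2 • B ∈ Metric.ball x ρ :=
    (JF_add x B).eventually (Metric.ball_mem_nhds x hρ)
  filter_upwards [i0, i1, i2, JF_pos x] with p hp0 hp1 hp2 hpt
  obtain ⟨X, t⟩ := p
  simp only at hp0 hp1 hp2 hpt ⊢
  have hconv : ∀ V : E, X + t • V ∈ Metric.ball x ρ → ∀ s : ℝ, 0 ≤ s → s ≤ t →
      X + s • V ∈ Metric.ball x ρ := by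
    intro V hV s hs hst
    have hseg : X + s • V ∈ segment ℝ X (X + t • V) := by
      rw [segment_eq_image']
      refine ⟨s / t, ⟨by positivity, (div_le_one hpt).2 hst⟩, ?_⟩
      simp only [add_sub_cancel_left, smul_smul]
      rw [div_mul_cancel₀ _ hpt.ne']
    exact (convex_ball x ρ).segment_subset hp0 hV hseg
  set α := C d x (A - B) A with hα
  set β := C d x (A - B) B with hβ
  let g : ℝ → ℝ := fun s => d (X + s • A) (X + s • B) - α * d X (X + s • A) + β * d X (X + s • B)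
  let m : ℝ → ℝ := fun s => d X (X + s • A) + d X (X + s • B)
  have hXU := (hb X hp0).1
  have hstep : ∀ s s' : ℝ, 0 < s → s ≤ s' → s' ≤ t → s' ≤ s * (1 + κ) →
      |g s' - g s| ≤ ε * (m s' - m s) := by
    intro s s' hs hss hst hsκ
    rcases eq_or_lt_of_le hss with h0 | h0
    · rw [h0]; simp
    have q1 := hconv A hp1 s' (hs.le.trans hss) hst
    have q2 := hconv B hp2 s' (hs.le.trans hss) hst
    have q3 := hconv A hp1 s hs.le (hss.trans hst)
    have q4 := hconv B hp2 s hs.le (hss.trans hst)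
    refine h.tri_step (κ := κ) hXU hAB hs h0 (hb _ q1).1 (hb _ q2).1 hsκ ?_ ?_ ?_ ?_
    · intro l hl0 hl1
      exact hNM (hb _ q1).2.1 (hκ1 l hl0 hl1)
    · intro l hl0 hl1
      exact hNM (hb _ q3).2.1 (hκ2 l hl0 hl1)
    · exact (hb _ q2).2.2
    · exact (hb _ q4).2.2
  have hch := chain hκ hstep
  -- let `s → 0`
  have hAt := h.mem_of_le (x := X) (v := A) (s := t) (t := t) hXU hpt.le le_rfl (hb _ hp1).1
  have hBt := h.mem_of_le (x := X) (v := B) (s := t) (t := t) hXU hpt.le le_rfl (hb _ hp2).1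
  have tA : Tendsto (fun s : ℝ => X + s • A) (𝓝[>] (0 : ℝ)) (𝓝 X) := by
    have : Continuous (fun s : ℝ => X + s • A) := by fun_prop
    have h1 := (this.tendsto 0).mono_left (nhdsWithin_le_nhds (s := Ioi (0 : ℝ)))
    simpa using h1
  have tB : Tendsto (fun s : ℝ => X + s • B) (𝓝[>] (0 : ℝ)) (𝓝 X) := by
    have : Continuous (fun s : ℝ => X + s • B) := by fun_prop
    have h1 := (this.tendsto 0).mono_left (nhdsWithin_le_nhds (s := Ioi (0 : ℝ)))
    simpa using h1
  have lAB := h.tendsto_d hXU hXU tA tB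
  have lA := h.tendsto_d hXU hXU (tendsto_const_nhds (x := X)) tA
  have lB := h.tendsto_d hXU hXU (tendsto_const_nhds (x := X)) tB
  rw [h.self hXU] at lAB lA lB
  have lg : Tendsto g (𝓝[>] (0 : ℝ)) (𝓝 0) := by
    have := (lAB.sub (lA.const_mul α)).add (lB.const_mul β)
    simpa using this
  have lm : Tendsto m (𝓝[>] (0 : ℝ)) (𝓝 0) := by
    have := lA.add lB
    simpa using this
  have l1 : Tendsto (fun s => |g t - g s|) (𝓝[>] (0 : ℝ)) (𝓝 |g t - 0|) := (lg.const_sub (g t)).abs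
  have l2 : Tendsto (fun s => ε * (m t - m s)) (𝓝[>] (0 : ℝ)) (𝓝 (ε * (m t - 0))) :=
    (lm.const_sub (m t)).const_mul ε
  have hfin : |g t - 0| ≤ ε * (m t - 0) := by
    refine le_of_tendsto_of_tendsto l1 l2 ?_
    have : ∀ᶠ s in 𝓝[>] (0 : ℝ), s ∈ Ioo 0 t := Ioo_mem_nhdsGT hpt
    filter_upwards [this] with s hs
    exact hch s t hs.1 hs.2.le le_rfl
  simpa [g, m] using hfin

/-- limiting ratio -/
noncomputable def _root_.Pool.Agent.Helper826.Ptol.R (d : E → E → ℝ) (x A B : E) : ℝ :=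
  (C d x B A - C d x (A - B) A * C d x B (A - B)) / (1 - C d x (A - B) B * C d x B (A - B))

/-- Ratio lemma -/
theorem ratio {x A B : E} (hx : x ∈ U) (hAB : Indep A B) :
    Tendsto (fun p : E × ℝ => d p.1 (p.1 + p.2 • B) / d p.1 (p.1 + p.2 • A)) (JF x)
      (𝓝 (R d x A B)) := by
  have hA0 := hAB.ne_left
  have hB0 := hAB.ne_right
  have hW : A - B ≠ 0 := by
    intro h0
    have := hAB 1 (-1) (by rw [← h0]; module)
    exact one_ne_zero this.1
  have hBW : Indep B (A - B) := by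
    intro a b h0
    have e : b • A + (a - b) • B = 0 := by rw [← h0]; module
    obtain ⟨e1, e2⟩ := hAB _ _ e
    constructor <;> linarith
  have hWB : Indep (A - B) B := by
    intro a b h0
    have e : a • A + (b - a) • B = 0 := by rw [← h0]; module
    obtain ⟨e1, e2⟩ := hAB _ _ e
    constructor <;> linarith
  have hAW : Indep (-A) (-(A - B)) := by
    intro a b h0
    have e : (-a - b) • A + b • B = 0 := by rw [← h0]; module
    obtain ⟨e1, e2⟩ := hAB _ _ e
    constructor <;> linarith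
  have b1 := abs_lt.1 (h.abs_C_lt_one hx hWB)
  have b2 := abs_lt.1 (h.abs_C_lt_one hx hBW)
  set α := C d x (A - B) A with hα
  set β := C d x (A - B) B with hβ
  set γ' := C d x B A with hγ
  set β' := C d x B (A - B) with hβ'
  have hk : 0 < 1 - β * β' := by nlinarith
  unfold R
  rw [← hα, ← hβ, ← hγ, ← hβ']
  apply tendsto_of_approx hk
  · filter_upwards [h.JF_mem0 hx, h.JF_mem hx A, h.JF_mem hx B] with p h0 h1 h2
    exact div_nonneg (h.nonneg h0 h2) (h.nonneg h0 h1)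
  · intro ε hε
    have T1 := h.triangle hx hAB hε
    have T2 := (JF_shift x A).eventually (h.triangle hx hAW hε)
    filter_upwards [h.JF_mem0 hx, h.JF_mem hx A, h.JF_mem hx B, T1, T2, JF_pos x] with p h0 h1 h2 h3 h4 h5
    obtain ⟨X, t⟩ := p
    simp only at h0 h1 h2 h3 h4 h5 ⊢
    have ha := h.pos_add h0 hA0 h5.ne' h1
    have e1 : X + t • A + t • (-A) = X := by module
    have e2 : X + t • A + t • (-(A - B)) = X + t • B := by module
    have e3 : -A - -(A - B) = -B := by abel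
    rw [e1, e2, e3, h.C_neg_left hx hB0 (neg_ne_zero.2 hA0), h.C_neg_left hx hB0 (neg_ne_zero.2 hW),
      h.C_neg_right hx hB0 hA0, h.C_neg_right hx hB0 hW, neg_neg, neg_neg, h.symm _ h1 _ h0,
      ← hγ, ← hβ'] at h4
    rw [← hα, ← hβ] at h3
    set a := d X (X + t • A) with hadef
    set b := d X (X + t • B) with hbdef
    set c := d (X + t • A) (X + t • B) with hcdef
    have hc : c ≤ a + b := by
      have := h.tri _ h1 _ h0 _ h2
      rw [h.symm _ h1 _ h0] at this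
      exact this
    have hb0 : 0 ≤ b := h.nonneg h0 h2
    have key : |b * (1 - β * β') - (γ' - α * β') * a| ≤ ε * (3 * a + 2 * b) := by
      have e : b * (1 - β * β') - (γ' - α * β') * a =
          (b - γ' * a + β' * c) - β' * (c - α * a + β * b) := by ring
      rw [e]
      have a1 : |β'| ≤ 1 := abs_le.2 ⟨by linarith, by linarith⟩
      calc |(b - γ' * a + β' * c) - β' * (c - α * a + β * b)|
          ≤ |b - γ' * a + β' * c| + |β' * (c - α * a + β * b)| := abs_sub _ _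
        _ ≤ ε * (a + c) + 1 * (ε * (a + b)) := by
            rw [abs_mul]
            apply add_le_add h4
            exact mul_le_mul a1 h3 (abs_nonneg _) zero_le_one
        _ ≤ ε * (3 * a + 2 * b) := by nlinarith
    have e5 : b / a * (1 - β * β') - (γ' - α * β') = (b * (1 - β * β') - (γ' - α * β') * a) / a := by
      field_simp
    rw [e5, abs_div, abs_of_pos ha, div_le_iff₀ ha]
    calc |b * (1 - β * β') - (γ' - α * β') * a| ≤ ε * (3 * a + 2 * b) := key
      _ = ε * (3 + 2 * (b / a)) * a := by field_simp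

end PM

end Pool.Agent.Helper826.Ptol
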