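import Mathlib
import Pool.Agent.Helper826.Ptol.Trans
import Pool.Agent.Helper826.Ptol.JobA

set_option autoImplicit false

namespace Pool.Agent.Helper826.Ptol

open Set Filter Topology

theorem twoDim_plane : TwoDim (ℝ × ℝ) := by
  intro A hA
  refine ⟨(-A.2, A.1), ?_⟩
  intro a b h0
  have h1 := congrArg Prod.fst h0
  have h2 := congrArg Prod.snd h0
  simp only [Prod.fst_add, Prod.smul_fst, Prod.snd_add, Prod.smul_snd, smul_eq_mul,
    Prod.fst_zero, Prod.snd_zero] at h1 h2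
  have hpos : 0 < A.1 ^ 2 + A.2 ^ 2 := by
    by_contra hc
    have : A.1 ^ 2 + A.2 ^ 2 = 0 := le_antisymm (not_lt.1 hc) (by positivity)
    have e1 : A.1 = 0 := by nlinarith [sq_nonneg A.1, sq_nonneg A.2]
    have e2 : A.2 = 0 := by nlinarith [sq_nonneg A.1, sq_nonneg A.2]
    exact hA (Prod.ext e1 e2)
  constructor
  · have : a * (A.1 ^ 2 + A.2 ^ 2) = 0 := by linear_combination A.1 * h1 + A.2 * h2
    exact (mul_eq_zero.1 this).resolve_right hpos.ne'
  · have : b * (A.1 ^ 2 + A.2 ^ 2) = 0 := by linear_combination A.1 * h2 - A.2 * h1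
    exact (mul_eq_zero.1 this).resolve_right hpos.ne'

theorem qf_pos {q r : ℝ} (hdet : 0 < r - q ^ 2) {v : ℝ × ℝ} (hv : v ≠ 0) : 0 < qf 1 q r v := by
  unfold qf
  have e : 1 * v.1 ^ 2 + 2 * q * v.1 * v.2 + r * v.2 ^ 2 =
      (v.1 + q * v.2) ^ 2 + (r - q ^ 2) * v.2 ^ 2 := by ring
  rw [e]
  by_cases h2 : v.2 = 0
  · have h1 : v.1 ≠ 0 := by
      intro h1
      exact hv (Prod.ext h1 h2)
    rw [h2]
    have : 0 < v.1 ^ 2 := by positivity
    simpa using this
  · have : 0 < v.2 ^ 2 := by positivity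
    have h3 : 0 < (r - q ^ 2) * v.2 ^ 2 := mul_pos hdet this
    have h4 : 0 ≤ (v.1 + q * v.2) ^ 2 := sq_nonneg _
    linarith

/-- if a parabola estimate holds for all `s`, the derivatives agree -/
theorem tangent_eq {N M b c : ℝ} (hN : 0 < N) (hM : 0 < M)
    (H : ∀ s : ℝ, N - s * c * M ≤ Real.sqrt (N ^ 2 - 2 * s * b + s ^ 2 * M ^ 2)) :
    c = b / (N * M) := by
  -- for small `s` square the inequality
  have key : ∀ s : ℝ, 0 ≤ N - s * c * M → 0 ≤ N ^ 2 - 2 * s * b + s ^ 2 * M ^ 2 →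
      -2 * s * (c * N * M - b) ≤ s ^ 2 * M ^ 2 := by
    intro s h1 h2
    have h3 := H s
    have h4 : (N - s * c * M) ^ 2 ≤ N ^ 2 - 2 * s * b + s ^ 2 * M ^ 2 := by
      calc (N - s * c * M) ^ 2 ≤ Real.sqrt (N ^ 2 - 2 * s * b + s ^ 2 * M ^ 2) ^ 2 :=
            pow_le_pow_left₀ h1 h3 2
        _ = _ := Real.sq_sqrt h2
    nlinarith [sq_nonneg (s * c * M)]
  set k := c * N * M - b with hk
  have hk0 : k = 0 := by
    have t1 : Tendsto (fun s : ℝ => N - s * c * M) (𝓝 0) (𝓝 N) := by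
      have : Continuous (fun s : ℝ => N - s * c * M) := by fun_prop
      simpa using this.tendsto 0
    have t2 : Tendsto (fun s : ℝ => N ^ 2 - 2 * s * b + s ^ 2 * M ^ 2) (𝓝 0) (𝓝 (N ^ 2)) := by
      have : Continuous (fun s : ℝ => N ^ 2 - 2 * s * b + s ^ 2 * M ^ 2) := by fun_prop
      simpa using this.tendsto 0
    have e1 : ∀ᶠ s : ℝ in 𝓝 0, 0 < N - s * c * M := t1.eventually_const_lt hN
    have e2 : ∀ᶠ s : ℝ in 𝓝 0, 0 < N ^ 2 - 2 * s * b + s ^ 2 * M ^ 2 :=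
      t2.eventually_const_lt (by positivity)
    have e3 : ∀ᶠ s : ℝ in 𝓝 0, -2 * s * k ≤ s ^ 2 * M ^ 2 := by
      filter_upwards [e1, e2] with s h1 h2
      exact key s h1.le h2.le
    apply le_antisymm
    · -- use negative s: 2 |s| k ≤ s² M²
      have e4 : ∀ᶠ s : ℝ in 𝓝[<] 0, k ≤ -s * M ^ 2 / 2 := by
        filter_upwards [e3.filter_mono nhdsWithin_le_nhds, self_mem_nhdsWithin] with s h1 h2
        have h2' : s < 0 := h2
        have : (-s) * (2 * k) ≤ (-s) * (-s * M ^ 2) := by nlinarith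
        have := le_of_mul_le_mul_left this (by linarith)
        linarith
      have t3 : Tendsto (fun s : ℝ => -s * M ^ 2 / 2) (𝓝[<] 0) (𝓝 0) := by
        have : Continuous (fun s : ℝ => -s * M ^ 2 / 2) := by fun_prop
        have h5 := (this.tendsto 0).mono_left (nhdsWithin_le_nhds (s := Iio (0 : ℝ)))
        simpa using h5
      exact ge_of_tendsto t3 e4
    · have e4 : ∀ᶠ s : ℝ in 𝓝[>] 0, -(s * M ^ 2 / 2) ≤ k := by
        filter_upwards [e3.filter_mono nhdsWithin_le_nhds, self_mem_nhdsWithin] with s h1 h2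
        have h2' : 0 < s := h2
        have : s * (-2 * k) ≤ s * (s * M ^ 2) := by nlinarith
        have := le_of_mul_le_mul_left this h2'
        linarith
      have t3 : Tendsto (fun s : ℝ => -(s * M ^ 2 / 2)) (𝓝[>] 0) (𝓝 0) := by
        have : Continuous (fun s : ℝ => -(s * M ^ 2 / 2)) := by fun_prop
        have h5 := (this.tendsto 0).mono_left (nhdsWithin_le_nhds (s := Ioi (0 : ℝ)))
        simpa using h5
      exact le_of_tendsto t3 e4
  rw [eq_div_iff (by positivity)]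
  linarith

theorem PM.local_form {U : Set (ℝ × ℝ)} {d : ℝ × ℝ → ℝ × ℝ → ℝ} (h : PM U d) :
    ∃ q r : ℝ × ℝ → ℝ, ContinuousOn q U ∧ ContinuousOn r U ∧ (∀ x ∈ U, 0 < r x - q x ^ 2) ∧
      (∀ x ∈ U, ∀ v : ℝ × ℝ,
        Tendsto (fun t : ℝ => d x (x + t • v) / d x (x + t • ((1, 0) : ℝ × ℝ))) (𝓝[>] 0)
          (𝓝 (Real.sqrt (qf 1 (q x) (r x) v)))) ∧
      (∀ x ∈ U, ∀ y ∈ U, y ≠ x → ∀ v : ℝ × ℝ, v ≠ 0 →
        Tendsto (fun t : ℝ => (d (x + t • v) y - d x y) / d x (x + t • v)) (𝓝[>] 0)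
          (𝓝 (-(bf 1 (q x) (r x) (y - x) v /
            Real.sqrt (qf 1 (q x) (r x) (y - x) * qf 1 (q x) (r x) v))))) := by
  have hE := twoDim_plane
  have hV0 : ((1, 0) : ℝ × ℝ) ≠ 0 := by
    intro h0
    have := congrArg Prod.fst h0
    simp at this
  let r : ℝ × ℝ → ℝ := fun x => Nm d (1, 0) x (0, 1) ^ 2
  let q : ℝ × ℝ → ℝ := fun x => (Nm d (1, 0) x (1, 1) ^ 2 - 1 - Nm d (1, 0) x (0, 1) ^ 2) / 2
  have hform : ∀ x ∈ U, 0 < r x - q x ^ 2 ∧ ∀ v : ℝ × ℝ, Nm d (1, 0) x v ^ 2 = qf 1 (q x) (r x) v := by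
    intro x hx
    obtain ⟨p', q', r', hp, hdet, hN⟩ := JA.day (fun v => Nm d (1, 0) x v)
      (fun v hv => h.Nm_pos hE hV0 hv hx) (fun c v => h.Nm_smul hE hV0 c v hx)
      (fun v w => h.Nm_add_le hE hV0 v w hx) (fun v w => h.Nm_rhombus hE hV0 v w hx)
    have h1 := hN (1, 0)
    simp only [h.Nm_self hE hV0 hx, qf] at h1
    have h2 := hN (0, 1)
    simp only [qf] at h2
    have h3 := hN (1, 1)
    simp only [qf] at h3
    have ep : p' = 1 := by linarith
    have er : r' = r x := by simp only [r]; linarith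
    have eq : q' = q x := by simp only [q]; linarith
    rw [ep, er, eq] at hN
    rw [ep, er, eq] at hdet
    exact ⟨by linarith, hN⟩
  have hNs : ∀ x ∈ U, ∀ v : ℝ × ℝ, Nm d (1, 0) x v = Real.sqrt (qf 1 (q x) (r x) v) := by
    intro x hx v
    rw [← (hform x hx).2 v, Real.sqrt_sq (h.Nm_nonneg hE hV0 v hx)]
  refine ⟨q, r, ?_, ?_, fun x hx => (hform x hx).1, ?_, ?_⟩
  · intro x hx
    apply ContinuousAt.continuousWithinAt
    have c1 := h.Nm_continuousAt hE hV0 (0, 1) hx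
    have c2 := h.Nm_continuousAt hE hV0 (1, 1) hx
    exact (((c2.pow 2).sub continuousAt_const).sub (c1.pow 2)).div_const 2
  · intro x hx
    apply ContinuousAt.continuousWithinAt
    exact (h.Nm_continuousAt hE hV0 (0, 1) hx).pow 2
  · intro x hx v
    rw [← hNs x hx v]
    exact (h.tendsto_Nm hE hV0 v hx).comp (JF_left (x := x))
  · intro x hx y hy hyx v hv
    have h1 := h.tendsto_C hx hy hyx hv
    have hyx' : y - x ≠ 0 := sub_ne_zero.2 hyx
    have hdet := (hform x hx).1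
    have hC : C d x (y - x) v = bf 1 (q x) (r x) (y - x) v /
        (Nm d (1, 0) x (y - x) * Nm d (1, 0) x v) := by
      apply tangent_eq (h.Nm_pos hE hV0 hyx' hx) (h.Nm_pos hE hV0 hv hx)
      intro s
      have h2 := h.Nm_support hE hV0 hyx' hv hx s
      have h3 : Nm d (1, 0) x (y - x) ^ 2 - 2 * s * bf 1 (q x) (r x) (y - x) v +
          s ^ 2 * Nm d (1, 0) x v ^ 2 = Nm d (1, 0) x (y - x - s • v) ^ 2 := by
        rw [(hform x hx).2, (hform x hx).2, (hform x hx).2]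
        simp only [qf, bf, Prod.fst_sub, Prod.snd_sub, Prod.smul_fst, Prod.smul_snd, smul_eq_mul]
        ring
      rw [h3, Real.sqrt_sq (h.Nm_nonneg hE hV0 _ hx)]
      exact h2
    rw [hC, hNs x hx, hNs x hx, ← Real.sqrt_mul (qf_pos hdet hyx').le] at h1
    exact h1

end Pool.Agent.Helper826.Ptol
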