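import Mathlib
import Pool.Agent.Helper826.Ptol.Local
import Pool.Agent.Helper826.Ptol.JobB
import Pool.Agent.Helper826.Ptol.JobC
import Pool.Agent.Helper826.Ptol.JobD
import Pool.Agent.Helper826.Ptol.JobE0
import Pool.Agent.Helper826.Ptol.JobE1
import Pool.Agent.Helper826.Ptol.JobE2
import Pool.Agent.Helper826.Ptol.JobF
import Pool.Agent.Helper826.Ptol.JobG
import Pool.Agent.Helper826.Ptol.JobH
import Pool.Agent.Helper826.Ptol.JobP

set_option autoImplicit false

namespace Pool.Agent.Helper826.Ptol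

open Set Filter Topology

theorem Bq_line (b : Fin 6 → ℝ) (x v : ℝ × ℝ) (t : ℝ) : Bq b (x + t • v) v = Bq b x v := by
  simp only [Bq, Prod.fst_add, Prod.snd_add, Prod.smul_fst, Prod.smul_snd, smul_eq_mul]
  ring

/-- The planar theorem -/
theorem planar (U : Set (ℝ × ℝ)) (d : ℝ × ℝ → ℝ × ℝ → ℝ) (h : PM U d) (h0 : (0 : ℝ × ℝ) ∈ U) :
    ConclE U d ∨ ConclH U d := by
  obtain ⟨q, r, hqc, hrc, hdet, hN, hC⟩ := h.local_form
  obtain ⟨φ, hφc, hφ⟩ := JG.arclength U d h q r hqc hrc hdet hC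
  obtain ⟨hder, hlen⟩ := JH.variation U d h q r φ hqc hrc hφc hdet (fun x hx => (hφ x hx).1)
    (fun x hx => (hφ x hx).2) hN hC
  have hp : ∀ x ∈ U, 0 < φ x ^ 2 := fun x hx => pow_pos (hφ x hx).1 2
  have hpc : ContinuousOn (fun x => φ x ^ 2) U := hφc.pow 2
  have hdet' : ∀ x ∈ U, 0 < φ x ^ 2 * (φ x ^ 2 * r x) - (φ x ^ 2 * q x) ^ 2 := by
    intro x hx
    have h1 := hp x hx
    have h2 := hdet x hx
    have e : φ x ^ 2 * (φ x ^ 2 * r x) - (φ x ^ 2 * q x) ^ 2 =
        (φ x ^ 2) ^ 2 * (r x - q x ^ 2) := by ring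
    rw [e]
    positivity
  have hmix := JC.mixed U h.isOpen d h.symm (fun x => φ x ^ 2) (fun x => φ x ^ 2 * q x)
    (fun x => φ x ^ 2 * r x) hpc (hpc.mul hqc) (hpc.mul hrc) hp hdet' hder
  obtain ⟨b, hb⟩ := JB.beltrami U h.isOpen ⟨0, h0⟩ (fun x => φ x ^ 2) (fun x => φ x ^ 2 * q x)
    (fun x => φ x ^ 2 * r x) hpc (hpc.mul hqc) (hpc.mul hrc) hp hdet' hmix
  refine JD.classify U d h h0 b (fun x hx => (hb x hx).1) (fun x hx => (hb x hx).2.1) ?_
  intro x hx y hy
  rw [hlen x hx y hy, ← intervalIntegral.integral_const_mul]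
  apply intervalIntegral.integral_congr
  intro t ht
  rw [uIcc_of_le zero_le_one] at ht
  have hm : x + t • (y - x) ∈ U := by
    apply h.convex.segment_subset hx hy
    rw [segment_eq_image']
    exact ⟨t, ht, rfl⟩
  obtain ⟨ha, hB, hform⟩ := hb _ hm
  have hf := hform (y - x)
  beta_reduce at hf
  beta_reduce
  rw [hf, Bq_line, Real.sqrt_div' _ (by positivity), Real.sqrt_sq ha.le]
  ring

/-- The theorem in all dimensions -/
theorem main_thm (n : ℕ) (U : Set (EuclideanSpace ℝ (Fin n)))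
    (d : EuclideanSpace ℝ (Fin n) → EuclideanSpace ℝ (Fin n) → ℝ) (hne : U.Nonempty)
    (h : PM U d) : Final U d := by
  rcases Nat.lt_or_ge 1 n with hn | hn
  · obtain ⟨o, ho⟩ := hne
    have h2 : ∀ p q : EuclideanSpace ℝ (Fin n), Indep p q →
      ConclE {a : ℝ × ℝ | o + a.1 • p + a.2 • q ∈ U}
        (fun a b => d (o + a.1 • p + a.2 • q) (o + b.1 • p + b.2 • q)) ∨
      ConclH {a : ℝ × ℝ | o + a.1 • p + a.2 • q ∈ U}
        (fun a b => d (o + a.1 • p + a.2 • q) (o + b.1 • p + b.2 • q)) := by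
      intro p q hpq
      apply planar _ _ (JP.pullback h o hpq)
      simpa using ho
    rcases JE0.dichotomy hn U d o h2 with h3 | h3
    · exact JE1.final_E hn U d h o ho h3
    · exact JE2.final_H hn U d h o ho h3
  · exact JF.small_dim hn U hne d h

end Pool.Agent.Helper826.Ptol
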